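import Pool.Agent.TH522.US.Kernel

/-!
Global correlation of a chain with an `L^p` to `L^2` inequality, for a local correlation `r` which
need not be close to one.
-/

namespace Pool.Agent.TH522.DG

open Finset Pool.Agent.H647R3.UG Pool.Agent.H573R3.SL Pool.Agent.TH522.UG Pool.Agent.TH522.US

/-- number of steps -/
theorem numbers2 (κ r q : ℝ) (hκ : 0 < κ) (hκ1 : κ < 1) (hr : 0 < r) (hr1 : r ≤ 1) (hq : 0 < q)
    (hq1 : q ≤ 1) (s : ℕ) (hs : s = ⌈Real.log (1 / q) / κ⌉₊) :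
    (1 - κ) ^ s ≤ q ∧
      Real.exp (-(2 * Real.log (1 / r) * (Real.log (1 / q) / κ + 1))) ≤ (r ^ s) ^ 2 := by
  refine ⟨(numbers κ 0 q hκ hκ1 le_rfl (by norm_num) hq hq1 s hs).1, ?_⟩
  have hL : 0 ≤ Real.log (1 / q) := Real.log_nonneg (by rw [le_div_iff₀ hq]; linarith)
  have hR : 0 ≤ Real.log (1 / r) := Real.log_nonneg (by rw [le_div_iff₀ hr]; linarith)
  have h3 : (s : ℝ) < Real.log (1 / q) / κ + 1 := by
    rw [hs]; exact Nat.ceil_lt_add_one (by positivity)
  have h4 : r = Real.exp (-Real.log (1 / r)) := by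
    rw [← Real.log_inv, one_div, inv_inv, Real.exp_log hr]
  rw [← pow_mul]
  calc Real.exp (-(2 * Real.log (1 / r) * (Real.log (1 / q) / κ + 1))) ≤
        Real.exp ((s * 2 : ℕ) * -Real.log (1 / r)) := by
        apply Real.exp_le_exp.2
        push_cast
        have := mul_le_mul_of_nonneg_left h3.le (by linarith : (0 : ℝ) ≤ 2 * Real.log (1 / r))
        linarith
    _ = Real.exp (-Real.log (1 / r)) ^ (s * 2) := by rw [Real.exp_nat_mul]
    _ = r ^ (s * 2) := by rw [← h4]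

/-- global correlation, positive masses -/
theorem gcy {W J : Type} [Fintype W] [DecidableEq W] [Fintype J] {m : W → ℝ}
    {T : (W → ℝ) → (W → ℝ)} (h : IsOper m T) (κ r q : ℝ) (hκ : 0 < κ) (hκ1 : κ < 1)
    (hr : 0 < r) (hr1 : r ≤ 1) (hq : 0 < q) (hq1 : q ≤ 1)
    (hH : ∀ g : W → ℝ, (∀ u, 0 ≤ g u) → ip m g (T g) ≤
      (vol m univ) ^ (-κ) * (∑ u, m u * g u ^ (2 / (1 + κ))) ^ (1 + κ))
    (U : J → W → ℝ) (hW : Nonempty W)
    (hen : r * ∑ j, ip m (U j) (U j) ≤ ∑ j, ip m (U j) (T (U j))) :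
    (∑ j, ip m (U j) (U j)) ^ 2 * (Real.exp (-(2 * Real.log (1 / r) *
        (Real.log (1 / q) / κ + 1))) * (Fintype.card W : ℝ) ^ (-q))
      ≤ ∑ u, ∑ v, m u * m v * (∑ j, U j u * U j v) ^ 2 := by
  set a : ℝ := ∑ j, ip m (U j) (U j) with had
  have ha : 0 ≤ a := sum_nonneg fun j _ => LCX.ip_self_nonneg h.pos _
  obtain ⟨s, hs⟩ : ∃ s : ℕ, s = ⌈Real.log (1 / q) / κ⌉₊ := ⟨_, rfl⟩
  obtain ⟨hn1, hn2⟩ := numbers2 κ r q hκ hκ1 hr hr1 hq hq1 s hs
  set δ : ℝ := (1 - κ) ^ s with hδ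
  have hδ0 : 0 ≤ δ := pow_nonneg (by linarith) _
  have hδ1 : δ ≤ 1 := hn1.trans hq1
  have hM : 0 < vol m univ := sum_pos (fun u _ => h.pos u) univ_nonempty
  set H : W → W → ℝ := fun u v => (T^[s] (dl m v)) u with hH'
  set Gm : W → W → ℝ := fun u v => ∑ j, U j u * U j v with hG
  have l1 : a * r ^ s ≤ ∑ u, ∑ v, m u * m v * H u v * Gm u v := by
    have h0 := lc h U (1 - r) (by linarith) (by rw [sub_sub_cancel]; exact hen) s
    rw [sub_sub_cancel] at h0
    refine h0.trans (le_of_eq ?_)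
    unfold ip
    simp only [it_kernel h (U _) s]
    rw [sum_comm]
    apply sum_congr rfl
    intro u _
    simp only [mul_sum, hG]
    rw [sum_comm]
    apply sum_congr rfl
    intro v _
    apply sum_congr rfl
    intro j _
    simp only [hH']
    ring
  have hc0 : 0 ≤ a * r ^ s := mul_nonneg ha (pow_nonneg hr.le _)
  have l2 : (∑ u, ∑ v, m u * m v * H u v * Gm u v) ^ 2 ≤
      (∑ u, ∑ v, m u * m v * H u v ^ 2) * ∑ u, ∑ v, m u * m v * Gm u v ^ 2 := by
    have h1 := Finset.sum_sq_le_sum_mul_sum_of_sq_le_mul ((univ : Finset W) ×ˢ (univ : Finset W))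
      (r := fun p => m p.1 * m p.2 * H p.1 p.2 * Gm p.1 p.2)
      (f := fun p => m p.1 * m p.2 * H p.1 p.2 ^ 2) (g := fun p => m p.1 * m p.2 * Gm p.1 p.2 ^ 2)
      (fun p _ => mul_nonneg (mul_nonneg (h.pos _).le (h.pos _).le) (sq_nonneg _))
      (fun p _ => mul_nonneg (mul_nonneg (h.pos _).le (h.pos _).le) (sq_nonneg _))
      (fun p _ => le_of_eq (by ring))
    rwa [sum_product, sum_product, sum_product] at h1
  have hn : (1 : ℝ) ≤ (Fintype.card W : ℝ) := by
    exact_mod_cast Fintype.card_pos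
  have l3 : ∑ u, ∑ v, m u * m v * H u v ^ 2 ≤ (Fintype.card W : ℝ) ^ q := by
    rw [sum_comm]
    have h1 : ∀ v ∈ (univ : Finset W), ∑ u, m u * m v * H u v ^ 2 ≤
        m v * (1 / vol m univ * (vol m univ / m v) ^ δ) := by
      intro v _
      have e : ∑ u, m u * m v * H u v ^ 2 = m v * ip m (T^[s] (dl m v)) (T^[s] (dl m v)) := by
        unfold ip
        rw [mul_sum]
        apply sum_congr rfl
        intro u _
        simp only [hH']
        ring
      rw [e]
      exact mul_le_mul_of_nonneg_left (decay h κ hκ hκ1 hH v s) (h.pos v).le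
    refine (sum_le_sum h1).trans ?_
    have h2 := T_SQ W m δ h.pos hδ0 hδ1
    have h3 : ∑ v, m v * (1 / vol m univ * (vol m univ / m v) ^ δ) =
        (∑ v, m v * (4 / vol m univ * (vol m univ / m v) ^ δ)) / 4 := by
      rw [sum_div]
      refine sum_congr rfl fun v _ => ?_
      ring
    rw [h3]
    have h4 : (Fintype.card W : ℝ) ^ δ ≤ (Fintype.card W : ℝ) ^ q :=
      Real.rpow_le_rpow_of_exponent_le hn hn1
    linarith
  set Q : ℝ := ∑ u, ∑ v, m u * m v * Gm u v ^ 2 with hQ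
  have hQ0 : 0 ≤ Q := sum_nonneg fun u _ => sum_nonneg fun v _ =>
    mul_nonneg (mul_nonneg (h.pos _).le (h.pos _).le) (sq_nonneg _)
  have l4 : (a * r ^ s) ^ 2 ≤ (Fintype.card W : ℝ) ^ q * Q :=
    (pow_le_pow_left₀ hc0 l1 2).trans (l2.trans (mul_le_mul_of_nonneg_right l3 hQ0))
  have l5 : a ^ 2 * Real.exp (-(2 * Real.log (1 / r) * (Real.log (1 / q) / κ + 1))) ≤
      (Fintype.card W : ℝ) ^ q * Q := by
    refine le_trans ?_ l4
    rw [mul_pow]
    exact mul_le_mul_of_nonneg_left hn2 (sq_nonneg _)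
  have hp : 0 < (Fintype.card W : ℝ) ^ q := Real.rpow_pos_of_pos (by linarith) _
  have hpn : (Fintype.card W : ℝ) ^ (-q) * (Fintype.card W : ℝ) ^ q = 1 := by
    rw [← Real.rpow_add (by linarith), neg_add_cancel, Real.rpow_zero]
  refine le_of_mul_le_mul_right ?_ hp
  calc a ^ 2 * (Real.exp (-(2 * Real.log (1 / r) * (Real.log (1 / q) / κ + 1))) *
        (Fintype.card W : ℝ) ^ (-q)) * (Fintype.card W : ℝ) ^ q
      = a ^ 2 * Real.exp (-(2 * Real.log (1 / r) * (Real.log (1 / q) / κ + 1))) *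
        ((Fintype.card W : ℝ) ^ (-q) * (Fintype.card W : ℝ) ^ q) := by ring
    _ = a ^ 2 * Real.exp (-(2 * Real.log (1 / r) * (Real.log (1 / q) / κ + 1))) := by
        rw [hpn, mul_one]
    _ ≤ (Fintype.card W : ℝ) ^ q * Q := l5
    _ = Q * (Fintype.card W : ℝ) ^ q := by ring

/-- global correlation property, with local correlation `r` -/
def GCQ {V : Type} [Fintype V] (K : V → V → ℝ) (m : V → ℝ) (r g : ℝ) : Prop :=
  ∀ (J : Type) [Fintype J] (U : J → V → ℝ), 0 < ∑ j, ip m (U j) (U j) →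
    r * ∑ j, ip m (U j) (U j) ≤ ∑ j, bil K (U j) (U j) →
    (∑ j, ip m (U j) (U j)) ^ 2 * g ≤ ∑ u, ∑ v, m u * m v * (∑ j, U j u * U j v) ^ 2

open Classical in
/-- global correlation, zero masses allowed -/
theorem gcy0 {V : Type} [Fintype V] (K : V → V → ℝ) (hK : IsKer K) (m : V → ℝ)
    (hd : ∀ u, ∑ v, K u v = m u) (κ r q : ℝ) (n : ℕ) (hκ : 0 < κ) (hκ1 : κ < 1)
    (hr : 0 < r) (hr1 : r ≤ 1) (hq : 0 < q) (hq1 : q ≤ 1)
    (hn : (univ.filter fun v => 0 < m v).card ≤ n)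
    (hH : ∀ g : V → ℝ, (∀ u, 0 ≤ g u) → bil K g g ≤
      (∑ u, m u) ^ (-κ) * (∑ u, m u * g u ^ (2 / (1 + κ))) ^ (1 + κ)) :
    GCQ K m r (Real.exp (-(2 * Real.log (1 / r) * (Real.log (1 / q) / κ + 1)))
        * (n : ℝ) ^ (-q)) := by
  intro J _ U hpos hen
  have hm : ∀ u, 0 ≤ m u := fun u => by rw [← hd]; exact sum_nonneg fun v _ => hK.nonneg u v
  have h0 : ∀ u, m u = 0 → ∀ v, K u v = 0 := fun u hu v => by
    rw [← hd] at hu
    exact (sum_eq_zero_iff_of_nonneg fun v _ => hK.nonneg u v).1 hu v (mem_univ v)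
  have h0' : ∀ u v, m v = 0 → K u v = 0 := fun u v hv => by rw [hK.symm, h0 v hv]
  set W := {v // 0 < m v} with hWd
  set K' : W → W → ℝ := fun u v => K u.1 v.1 with hK'
  set m' : W → ℝ := fun u => m u.1 with hm'
  have ext0 : ∀ (g : W → ℝ), ∃ e : V → ℝ, (∀ u : W, e u.1 = g u) ∧
      ((∀ u, 0 ≤ g u) → ∀ v, 0 ≤ e v) := by
    intro g
    refine ⟨fun v => if hv : 0 < m v then g ⟨v, hv⟩ else 0, fun u => ?_, fun hg v => ?_⟩
    · simp only [dif_pos u.2]
      rfl
    · simp only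
      split_ifs
      · exact hg _
      · exact le_rfl
  have hbil : ∀ (f g : V → ℝ), bil K f g = bil K' (fun u => f u.1) (fun u => g u.1) := by
    intro f g
    unfold bil
    exact GCFL.red2 m hm (fun u v => K u v * (f u * g v)) (fun u v hu => by simp [h0 u hu v])
      (fun u v hv => by simp [h0' u v hv])
  have hKer : IsKer K' := by
    refine ⟨fun u v => hK.nonneg _ _, fun u v => hK.symm _ _, fun f => ?_⟩
    obtain ⟨e, he, -⟩ := ext0 f
    have h1 := hK.psd e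
    rw [hbil] at h1
    simp only [he] at h1
    exact h1
  have hdW : ∀ u : W, ∑ v, K' u v = m' u := by
    intro u
    have h1 := GCFL.red m hm (fun v => K u.1 v) (fun v hv => h0' _ _ hv)
    rw [hd] at h1
    exact h1.symm
  have hop := isOper hKer m' (fun u => u.2) hdW
  have hne : Nonempty W := by
    by_contra hemp
    rw [not_nonempty_iff] at hemp
    have : ∑ j, ip m (U j) (U j) = 0 := by
      refine Finset.sum_eq_zero fun j _ => ?_
      rw [GCFL.ip_red m hm]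
      unfold ip
      exact Fintype.sum_empty _
    linarith
  have hvol : vol m' univ = ∑ u, m u :=
    (GCFL.red m hm (fun v => m v) (fun v hv => hv)).symm
  have hH' : ∀ g : W → ℝ, (∀ u, 0 ≤ g u) → ip m' g (ch K' m' g) ≤
      (vol m' univ) ^ (-κ) * (∑ u, m' u * g u ^ (2 / (1 + κ))) ^ (1 + κ) := by
    intro g hg
    obtain ⟨e, he, he0⟩ := ext0 g
    have h1 := hH e (he0 hg)
    rw [hbil, GCFL.red m hm (fun u => m u * e u ^ (2 / (1 + κ))) (fun v hv => by simp [hv])] at h1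
    simp only [he] at h1
    rw [ip_ch m' (fun u => u.2), hvol]
    exact h1
  have e1 : ∀ j, ip m (U j) (U j) = ip m' (fun u => U j u.1) (fun u => U j u.1) :=
    fun j => GCFL.ip_red m hm _ _
  have e3 : ∑ u, ∑ v, m u * m v * (∑ j, U j u * U j v) ^ 2 =
      ∑ u : W, ∑ v : W, m' u * m' v * (∑ j, U j u.1 * U j v.1) ^ 2 :=
    GCFL.red2 m hm (fun u v => m u * m v * (∑ j, U j u * U j v) ^ 2) (fun u v hu => by simp [hu])
      (fun u v hv => by simp [hv])
  have h := gcy hop κ r q hκ hκ1 hr hr1 hq hq1 hH' (fun j u => U j u.1) hne (by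
    have h1 : ∀ j, ip m' (fun u => U j u.1) (ch K' m' fun u => U j u.1) =
        bil K (U j) (U j) := by
      intro j
      rw [ip_ch m' (fun u => u.2), hbil]
    rw [sum_congr rfl fun j _ => h1 j, ← sum_congr rfl fun j _ => e1 j]
    exact hen)
  rw [← sum_congr rfl fun j _ => e1 j] at h
  rw [e3]
  refine le_trans ?_ h
  refine mul_le_mul_of_nonneg_left ?_ (sq_nonneg _)
  refine mul_le_mul_of_nonneg_left ?_ (Real.exp_pos _).le
  have hc : Fintype.card W ≤ n := by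
    have h9 : Fintype.card W = (univ.filter fun v => 0 < m v).card :=
      Fintype.card_subtype (fun v => 0 < m v)
    rw [h9]
    exact hn
  have hc1 : 1 ≤ Fintype.card W := Fintype.card_pos
  refine Real.rpow_le_rpow_of_nonpos ?_ ?_ (by linarith)
  · exact_mod_cast hc1
  · exact_mod_cast hc

end Pool.Agent.TH522.DG
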