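import Pool.Agent.TH522.DG.Rel

/-!
Conditioning until the labels of the pairs of edges are correlated already for independent labels.
-/

namespace Pool.Agent.TH522.DG

open Finset Pool.Agent.H647R3.UG Pool.Agent.H573R3.SL Pool.Agent.TH522.UG Pool.Agent.TH522.US

section
variable {Z A E B : Type} [Fintype Z] [DecidableEq Z] [Fintype A] [DecidableEq A] [Fintype E]
  [DecidableEq B]

theorem kr_le_one {L : ((Z → A) → ℝ) →ₗ[ℝ] ℝ} (hL : Fct L) (u v : Z) : kr L u v ≤ 1 := by
  obtain ⟨h1, h2, h3, h4⟩ := T_RD A (pr2 L u v) (pr L u) (pr L v) (hL.law u v)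
  have h5 : kr L u v = ker (pr2 L u v) (pr L u) (pr L v) := rfl
  rw [← h5] at h1 h2
  linarith

/-- one conditioning step -/
theorem s1d (s t : E → Z) (π : E → A → B) (d : ℕ) (hd : 0 < d) (hfib : ∀ e, Fib d (π e))
    (ω : E → ℝ) (hω : ∀ e, 0 ≤ ω e) (F : Z → ℝ) (hF : ∀ v, 0 ≤ F v)
    (L : ((Z → A) → ℝ) →ₗ[ℝ] ℝ) (hL : Fct L) (m : Z → ℝ)
    (hm : m = fun u => ∑ v, kf (K2 s t ω) F u v) (θ g : ℝ) (hθ : 0 < θ) (hg : 0 ≤ g)
    (hM : 0 < ∑ v, m v) (hGC : GCQ (kf (K2 s t ω) F) m (θ ^ 2 / d) g)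
    (hS : 2 * θ * ∑ v, m v ≤ SatF s t π ω F L)
    (hI : IndF s t π ω F (pr L) ≤ θ * ∑ v, m v) :
    ∃ u, (θ ^ 2 / d) ^ 2 * g * ∑ v, m v ≤ PhiM m L - ∑ a, pr L u a * PhiM m (cnd L u a) := by
  have hd0 : (0 : ℝ) < d := by exact_mod_cast hd
  have hker := isKer_kf (isKer_K2 s t ω hω) F hF
  have hm0 : ∀ u, 0 ≤ m u := fun u => by
    rw [hm]; exact sum_nonneg fun v _ => hker.nonneg u v
  have hrow : ∀ u, ∑ v, kf (K2 s t ω) F u v = m u := fun u => by rw [hm]
  obtain ⟨J, instJ, U, hU⟩ := hL.gram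
  set M : ℝ := ∑ v, m v with hMd
  set r : ℝ := θ ^ 2 / d with hr
  have hr0 : 0 < r := by positivity
  have hMps : M = PS t ω fun e e' => F (s e) * F (s e') := by
    rw [hMd, ← bil_K2, hm]
    unfold bil
    refine sum_congr rfl fun u _ => sum_congr rfl fun v _ => rfl
  -- the form of the kernel
  have hbil : ∑ j, bil (kf (K2 s t ω) F) (U j) (U j) =
      PS t ω fun e e' => F (s e) * F (s e') * kr L (s e) (s e') := by
    rw [← K2_sum s t ω fun u v => F u * F v * kr L u v]
    unfold bil kf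
    rw [sum_comm]
    refine sum_congr rfl fun u _ => ?_
    rw [sum_comm]
    refine sum_congr rfl fun v _ => ?_
    rw [← mul_sum, ← hU]
    ring
  have hlow : r * M ≤ ∑ j, bil (kf (K2 s t ω) F) (U j) (U j) := by
    rw [hbil]
    have h1 : PS t ω (fun e e' => (1 / d) * (2 * θ * (F (s e) * F (s e') *
        rl (π e) (π e') (pr2 L (s e) (s e'))) + (-(2 * θ)) * (F (s e) * F (s e') *
        rl (π e) (π e') (fun a b => pr L (s e) a * pr L (s e') b)) +
        (-θ ^ 2) * (F (s e) * F (s e')))) ≤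
        PS t ω (fun e e' => F (s e) * F (s e') * kr L (s e) (s e')) := by
      refine PS_mono t ω hω _ _ fun e e' _ => ?_
      have h2 := rl_ker (hL.law (s e) (s e')) d (π e) (π e') (hfib e) (hfib e')
      have h3 : kr L (s e) (s e') = ker (pr2 L (s e) (s e')) (pr L (s e)) (pr L (s e')) := rfl
      rw [← h3] at h2
      have h4 := mul_nonneg (hF (s e)) (hF (s e'))
      set X := rl (π e) (π e') (pr2 L (s e) (s e'))
      set Y := rl (π e) (π e') (fun a b => pr L (s e) a * pr L (s e') b)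
      have h5 : (1 / d) * (2 * θ * (X - Y) - θ ^ 2) ≤ kr L (s e) (s e') := by
        rw [one_div, inv_mul_le_iff₀ hd0]
        nlinarith [sq_nonneg (X - Y - θ)]
      have h6 := mul_le_mul_of_nonneg_left h5 h4
      linarith
    refine le_trans ?_ h1
    rw [PS_smul, PS_add, PS_add, PS_smul, PS_smul, PS_smul, ← hMps]
    have h7 : (PS t ω fun e e' => F (s e) * F (s e') * rl (π e) (π e') (pr2 L (s e) (s e'))) =
        SatF s t π ω F L := rfl
    have h8 : (PS t ω fun e e' => F (s e) * F (s e') *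
        rl (π e) (π e') (fun a b => pr L (s e) a * pr L (s e') b)) = IndF s t π ω F (pr L) := rfl
    rw [h7, h8, hr, div_mul_eq_mul_div, div_le_iff₀ hd0, one_div, inv_mul_eq_div,
      div_mul_cancel₀ _ hd0.ne']
    nlinarith
  -- masses
  have hTk : ∑ j, ip m (U j) (U j) = ∑ u, m u * kr L u u := by
    unfold ip
    rw [sum_comm]
    refine sum_congr rfl fun u _ => ?_
    rw [hU u u, mul_sum]
    exact sum_congr rfl fun j _ => by ring
  have hTM : ∑ j, ip m (U j) (U j) ≤ M := by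
    rw [hTk]
    refine sum_le_sum fun u _ => ?_
    have := mul_le_mul_of_nonneg_left (kr_le_one hL u u) (hm0 u)
    linarith
  have hbi : ∑ j, bil (kf (K2 s t ω) F) (U j) (U j) ≤ ∑ j, ip m (U j) (U j) := by
    refine sum_le_sum fun j _ => ?_
    rw [bil_en hker m hrow]
    linarith [en_nonneg hker (U j)]
  have hT2 : r * M ≤ ∑ j, ip m (U j) (U j) := hlow.trans hbi
  have hT0 : 0 < ∑ j, ip m (U j) (U j) := lt_of_lt_of_le (by positivity) hT2
  have hgc := hGC J U hT0 (le_trans (mul_le_mul_of_nonneg_left hTM hr0.le) hlow)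
  have hlow2 : r ^ 2 * g * M ^ 2 ≤ ∑ u, ∑ v, m u * m v * (kr L u v) ^ 2 := by
    simp_rw [← hU] at hgc
    refine le_trans ?_ hgc
    have h1 : (r * M) ^ 2 ≤ (∑ j, ip m (U j) (U j)) ^ 2 :=
      pow_le_pow_left₀ (by positivity) hT2 2
    have h2 : r ^ 2 * g * M ^ 2 = (r * M) ^ 2 * g := by ring
    rw [h2]
    exact mul_le_mul_of_nonneg_right h1 hg
  have hdec : ∀ u v, (kr L u v) ^ 2 ≤ (dec L u v + dec L v u) / 2 := by
    intro u v
    obtain ⟨h1, h2, h3, h4⟩ := T_RD A (pr2 L u v) (pr L u) (pr L v) (hL.law u v)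
    have e1 : (∑ a, ∑ b, (pr2 L u v a b - pr L u a * pr L v b) ^ 2 / pr L u a) = dec L u v := rfl
    have e2 : (∑ a, ∑ b, (pr2 L u v a b - pr L u a * pr L v b) ^ 2 / pr L v b) = dec L v u := by
      unfold dec
      rw [sum_comm]
      refine sum_congr rfl fun b _ => sum_congr rfl fun a _ => ?_
      rw [hL.symm u v a b, mul_comm (pr L u a)]
    rw [e1] at h2 h3
    rw [e2] at h2 h4
    have h5 : kr L u v = ker (pr2 L u v) (pr L u) (pr L v) := rfl
    rw [← h5] at h1 h2
    have h6 : kr L u v ≤ 1 := by linarith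
    nlinarith
  have hup : ∑ u, ∑ v, m u * m v * (kr L u v) ^ 2 ≤ ∑ u, m u * ∑ v, m v * dec L u v := by
    have h1 : ∑ u, ∑ v, m u * m v * (kr L u v) ^ 2
        ≤ ∑ u, ∑ v, m u * m v * ((dec L u v + dec L v u) / 2) :=
      sum_le_sum fun u hu => sum_le_sum fun v hv =>
        mul_le_mul_of_nonneg_left (hdec u v) (mul_nonneg (hm0 u) (hm0 v))
    refine h1.trans (le_of_eq ?_)
    have h2 : ∑ u, ∑ v, m u * m v * ((dec L u v + dec L v u) / 2)
        = (∑ u, ∑ v, m u * m v * dec L u v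
          + ∑ u, ∑ v, m u * m v * dec L v u) / 2 := by
      rw [← sum_add_distrib, sum_div]
      refine sum_congr rfl fun u _ => ?_
      rw [← sum_add_distrib, sum_div]
      refine sum_congr rfl fun v _ => ?_
      ring
    have h3 : ∑ u, ∑ v, m u * m v * dec L v u
        = ∑ u, ∑ v, m u * m v * dec L u v := by
      rw [sum_comm]
      refine sum_congr rfl fun u _ => sum_congr rfl fun v _ => ?_
      ring
    rw [h2, h3]
    have h4 : ∑ u, ∑ v, m u * m v * dec L u v = ∑ u, m u * ∑ v, m v * dec L u v := by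
      refine sum_congr rfl fun u _ => ?_
      rw [mul_sum]
      exact sum_congr rfl fun v _ => by ring
    rw [h4]
    ring
  have hex : ∃ u, r ^ 2 * g * M ≤ ∑ v, m v * dec L u v := by
    by_contra hcon
    push Not at hcon
    obtain ⟨u0, -, hu0⟩ : ∃ u ∈ (univ : Finset Z), 0 < m u := by
      apply exists_lt_of_sum_lt (f := fun _ => (0 : ℝ))
      rw [sum_const_zero]
      exact hM
    have h1 : ∑ u, m u * ∑ v, m v * dec L u v < ∑ u, m u * (r ^ 2 * g * M) :=
      sum_lt_sum (fun u _ => mul_le_mul_of_nonneg_left (hcon u).le (hm0 u))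
        ⟨u0, mem_univ _, mul_lt_mul_of_pos_left (hcon u0) hu0⟩
    rw [← sum_mul, ← hMd] at h1
    have h2 := hlow2.trans hup
    nlinarith
  obtain ⟨u, hle⟩ := hex
  refine ⟨u, hle.trans (le_of_eq ?_)⟩
  unfold PhiM
  have h2 : ∑ a, pr L u a * ∑ v, m v * vr (cnd L u a) v
      = ∑ v, m v * ∑ a, pr L u a * vr (cnd L u a) v := by
    simp_rw [mul_sum]
    rw [sum_comm]
    refine sum_congr rfl fun v _ => sum_congr rfl fun a _ => ?_
    ring
  rw [h2, ← sum_sub_distrib]
  refine sum_congr rfl fun v _ => ?_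
  rw [hL.fd u v]
  ring

/-- iteration: `c2` is a lower bound for the correlation of the pairs of edges -/
theorem s2d (s t : E → Z) (π : E → A → B) (d : ℕ) (hd : 0 < d) (hfib : ∀ e, Fib d (π e))
    (ω : E → ℝ) (hω : ∀ e, 0 ≤ ω e) (F : Z → ℝ) (hF : ∀ v, 0 ≤ F v) (m : Z → ℝ)
    (hm : m = fun u => ∑ v, kf (K2 s t ω) F u v) (c2 g : ℝ) (hc2 : 0 < c2) (hg : 0 ≤ g)
    (hM : 0 < ∑ v, m v) (hGC : GCQ (kf (K2 s t ω) F) m ((c2 / 4) ^ 2 / d) g) (k : ℕ)
    (hk : 1 ≤ k * (c2 / 2 * (((c2 / 4) ^ 2 / d) ^ 2 * g)))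
    (L : ((Z → A) → ℝ) →ₗ[ℝ] ℝ) (hL : Mixed k L) (hS : c2 * ∑ v, m v ≤ SatF s t π ω F L) :
    ∃ L' : ((Z → A) → ℝ) →ₗ[ℝ] ℝ, Mixed 0 L' ∧
      c2 / 4 * ∑ v, m v ≤ IndF s t π ω F (pr L') := by
  set M := ∑ v, m v with hMdef
  set Δ := ((c2 / 4) ^ 2 / d) ^ 2 * g with hΔ
  have hd0 : (0 : ℝ) < d := by exact_mod_cast hd
  have hΔ0 : 0 ≤ Δ := by positivity
  have hker := isKer_kf (isKer_K2 s t ω hω) F hF
  have hm0 : ∀ u, 0 ≤ m u := fun u => by
    rw [hm]; exact sum_nonneg fun v _ => hker.nonneg u v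
  have hMps : M = PS t ω fun e e' => F (s e) * F (s e') := by
    rw [hMdef, ← bil_K2, hm]
    unfold bil
    refine sum_congr rfl fun u _ => sum_congr rfl fun v _ => rfl
  have hsat1 : ∀ L : ((Z → A) → ℝ) →ₗ[ℝ] ℝ, Fct L → SatF s t π ω F L ≤ M := by
    intro L hL
    rw [hMps]
    refine PS_mono t ω hω _ _ fun e e' _ => ?_
    have := mul_le_mul_of_nonneg_left (rl_le_one (hL.law (s e) (s e')) (π e) (π e'))
      (mul_nonneg (hF (s e)) (hF (s e')))
    linarith
  have key : ∀ k' : ℕ, ∀ (L : ((Z → A) → ℝ) →ₗ[ℝ] ℝ), Mixed k' L →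
      c2 / 2 * PhiM m L - SatF s t π ω F L < (k' * (c2 / 2 * Δ) - 1) * M →
      c2 / 2 * PhiM m L - SatF s t π ω F L ≤ -(c2 / 2) * M →
      ∃ L' : ((Z → A) → ℝ) →ₗ[ℝ] ℝ, Mixed 0 L' ∧ c2 / 4 * M ≤ IndF s t π ω F (pr L') := by
    intro k'
    induction k' with
    | zero =>
      intro L hL h2 h3
      have hfc := (hier_mixed Z A).fct _ _ hL
      obtain ⟨hp0, hp1⟩ := phiM_bounds m hm0 hfc
      have h4 := hsat1 L hfc
      have h5 : 0 ≤ c2 / 2 * PhiM m L := by positivity
      push_cast at h2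
      exfalso
      linarith
    | succ k' ih =>
      intro L hL h2 h3
      have hfc := (hier_mixed Z A).fct _ _ hL
      obtain ⟨hp0, hp1⟩ := phiM_bounds m hm0 hfc
      rcases le_total (c2 / 4 * M) (IndF s t π ω F (pr L)) with hc | hc
      · exact ⟨L, (hier_mixed Z A).mono' L 0 (k' + 1) (by rw [Nat.zero_add]; exact hL), hc⟩
      · have hS' : 2 * (c2 / 4) * M ≤ SatF s t π ω F L := by
          have : 0 ≤ c2 / 2 * PhiM m L := by positivity
          linarith
        obtain ⟨u, hle⟩ := s1d s t π d hd hfib ω hω F hF L hfc m hm (c2 / 4) g (by positivity) hg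
          hM hGC hS' hc
        rw [← hΔ, ← hMdef] at hle
        have hpr0 := hfc.nn
        have hone : ∑ a, pr L u a = 1 := (hfc.law u u).one
        have havg := satF_avg hL s t π ω F u
        have hex : ∃ a, 0 < pr L u a ∧
            c2 / 2 * PhiM m (cnd L u a) - SatF s t π ω F (cnd L u a)
              ≤ c2 / 2 * PhiM m L - SatF s t π ω F L - c2 / 2 * Δ * M := by
          by_contra hne
          push Not at hne
          have hs : ∑ a, pr L u a * (c2 / 2 * PhiM m (cnd L u a) - SatF s t π ω F (cnd L u a))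
              ≤ c2 / 2 * PhiM m L - SatF s t π ω F L - c2 / 2 * Δ * M := by
            have e2 : ∑ a, pr L u a * (c2 / 2 * PhiM m (cnd L u a)
              - SatF s t π ω F (cnd L u a))
              = c2 / 2 * (∑ a, pr L u a * PhiM m (cnd L u a)) - SatF s t π ω F L := by
              rw [← havg, mul_sum, ← sum_sub_distrib]
              refine sum_congr rfl fun a _ => ?_
              ring
            rw [e2]
            have := mul_le_mul_of_nonneg_left hle (by positivity : 0 ≤ c2 / 2)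
            linarith
          have hpos' : ∃ a, 0 < pr L u a := by
            by_contra hno
            push Not at hno
            have : ∑ a, pr L u a ≤ 0 := sum_nonpos fun a _ => hno a
            linarith
          obtain ⟨a0, ha0⟩ := hpos'
          have hlt : ∑ a, pr L u a * (c2 / 2 * PhiM m L - SatF s t π ω F L - c2 / 2 * Δ * M)
              < ∑ a, pr L u a * (c2 / 2 * PhiM m (cnd L u a) - SatF s t π ω F (cnd L u a)) := by
            apply sum_lt_sum
            · intro a _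
              rcases (hpr0 u a).lt_or_eq with h | h
              · exact mul_le_mul_of_nonneg_left (hne a h).le h.le
              · rw [← h, zero_mul, zero_mul]
            · exact ⟨a0, mem_univ _, mul_lt_mul_of_pos_left (hne a0 ha0) ha0⟩
          rw [← sum_mul, hone, one_mul] at hlt
          linarith
        obtain ⟨a, ha, hle2⟩ := hex
        have hL' := (hier_mixed Z A).step k' L hL u a ha
        refine ih (cnd L u a) hL' ?_ ?_
        · push_cast at h2
          linarith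
        · have : 0 ≤ c2 / 2 * Δ * M := by positivity
          linarith
  have hfc := (hier_mixed Z A).fct _ _ hL
  obtain ⟨hp0, hp1⟩ := phiM_bounds m hm0 hfc
  have h1 : c2 / 2 * PhiM m L ≤ c2 / 2 * M := mul_le_mul_of_nonneg_left hp1 (by positivity)
  have h2 : 1 * M ≤ k * (c2 / 2 * Δ) * M := mul_le_mul_of_nonneg_right hk hM.le
  have h3 : 0 < c2 * M := by positivity
  exact key k L hL (by linarith) (by linarith)

end

end Pool.Agent.TH522.DG
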