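import Pool.Agent.TH522.DG.Round

/-!
The mixed hierarchy for games with two sides, and the correlation of pairs of edges.
-/

namespace Pool.Agent.TH522.DG

open Finset Pool.Agent.H647R3.UG Pool.Agent.H573R3.SL Pool.Agent.TH522.UG Pool.Agent.TH522.US

/-- `f` depends only on the labels of the right vertices in `S` and of the left vertices in `T` -/
def Dep2 {V W A B : Type} (S : Finset W) (T : Finset V) (f : (W → A) × (V → B) → ℝ) : Prop :=
  ∀ z z' : (W → A) × (V → B), (∀ w ∈ S, z.1 w = z'.1 w) → (∀ v ∈ T, z.2 v = z'.2 v) → f z = f z'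

/-- `k` levels of the mixed hierarchy: `L` (the linear extension of an expectation of the
functions of at most `k + 2` labels) is normalised, nonnegative on the nonnegative functions of at
most `k + 2` labels, and nonnegative on the products of a nonnegative function of at most `k`
labels and a square of a sum of functions of one label. -/
structure Mixed2 {V W A B : Type} [Fintype V] [Fintype W] (k : ℕ)
    (L : ((W → A) × (V → B) → ℝ) →ₗ[ℝ] ℝ) : Prop where
  one : L (fun _ => 1) = 1
  junta : ∀ (S : Finset W) (T : Finset V), S.card + T.card ≤ k + 2 →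
    ∀ f : (W → A) × (V → B) → ℝ, Dep2 S T f → (∀ z, 0 ≤ f z) → 0 ≤ L f
  psd : ∀ (S : Finset W) (T : Finset V), S.card + T.card ≤ k →
    ∀ g : (W → A) × (V → B) → ℝ, Dep2 S T g → (∀ z, 0 ≤ g z) →
    ∀ (c : W → A → ℝ) (c' : V → B → ℝ),
      0 ≤ L (fun z => g z * (∑ w, c w (z.1 w) + ∑ v, c' v (z.2 v)) ^ 2)

/-- indicator that the edge `e` is satisfied -/
def satE {V W A B E : Type} [DecidableEq B] (v : E → V) (w : E → W) (π : E → A → B) (e : E)
    (z : (W → A) × (V → B)) : ℝ := if π e (z.1 (w e)) = z.2 (v e) then 1 else 0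

section
variable {V W A B E : Type} [Fintype V] [Fintype W]

/-- the functional of the labels of the right vertices -/
def pj (a0 : A) (L : ((W → A) × (V → B) → ℝ) →ₗ[ℝ] ℝ) : ((W ⊕ V → A) → ℝ) →ₗ[ℝ] ℝ where
  toFun f := L fun z => f (Sum.elim z.1 fun _ => a0)
  map_add' f g := by
    rw [← map_add]
    rfl
  map_smul' c f := by
    rw [← map_smul]
    rfl

theorem pj_mixed (a0 : A) (k : ℕ) (L : ((W → A) × (V → B) → ℝ) →ₗ[ℝ] ℝ) (hL : Mixed2 k L) :
    Mixed k (pj a0 L) := by
  have hdep : ∀ (S : Finset (W ⊕ V)) (f : (W ⊕ V → A) → ℝ), Dep S f →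
      Dep2 S.toLeft (∅ : Finset V) fun z : (W → A) × (V → B) =>
        f (Sum.elim z.1 fun _ => a0) := by
    intro S f hf z z' h1 _
    refine hf _ _ fun v hv => ?_
    rcases v with v | v
    · simp only [Sum.elim_inl]
      exact h1 v (mem_toLeft.2 hv)
    · simp only [Sum.elim_inr]
  have hcard : ∀ S : Finset (W ⊕ V), S.toLeft.card + (∅ : Finset V).card ≤ S.card := by
    intro S
    have := S.card_toLeft_add_card_toRight
    rw [card_empty]
    omega
  refine ⟨hL.one, fun S hS f hf hf0 => ?_, fun S hS g hg hg0 c => ?_⟩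
  · exact hL.junta S.toLeft ∅ ((hcard S).trans hS) _ (hdep S f hf) fun z => hf0 _
  · have h1 := hL.psd S.toLeft ∅ ((hcard S).trans hS) _ (hdep S g hg) (fun z => hg0 _)
      (fun w a => c (Sum.inl w) a) (fun v _ => c (Sum.inr v) a0)
    have h2 : (pj a0 L) (fun x => g x * (∑ v, c v (x v)) ^ 2) =
        L (fun z => g (Sum.elim z.1 fun _ => a0) * (∑ w, c (Sum.inl w) (z.1 w) +
          ∑ v : V, c (Sum.inr v) a0) ^ 2) := by
      show L (fun z => g (Sum.elim z.1 fun _ => a0) *
        (∑ v, c v ((Sum.elim z.1 fun _ => a0 : W ⊕ V → A) v)) ^ 2) = _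
      congr 1
      funext z
      rw [Fintype.sum_sum_type]
      simp only [Sum.elim_inl, Sum.elim_inr]
    rw [h2]
    exact h1

variable [Fintype E] [Fintype A] [DecidableEq A] [Fintype B] [DecidableEq B] [DecidableEq V]
  [DecidableEq W]

omit [Fintype A] [DecidableEq A] in
/-- correlation at one left vertex -/
theorem vertex_corr (k : ℕ) (L : ((W → A) × (V → B) → ℝ) →ₗ[ℝ] ℝ) (hL : Mixed2 (k + 1) L)
    (v : E → V) (w : E → W) (π : E → A → B) (v0 : V) (y : E → ℝ) :
    (∑ e, (if v e = v0 then y e else 0) * L (satE v w π e)) ^ 2 ≤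
      ∑ b, L (fun z => (∑ e, if v e = v0 then y e * (if π e (z.1 (w e)) = b then 1 else 0)
        else 0) ^ 2) := by
  set G : B → (W → A) × (V → B) → ℝ := fun b z =>
    ∑ e, if v e = v0 then y e * (if π e (z.1 (w e)) = b then 1 else 0) else 0 with hG
  set I : B → (W → A) × (V → B) → ℝ := fun b z => if z.2 v0 = b then 1 else 0 with hI
  set X : ℝ := ∑ e, (if v e = v0 then y e else 0) * L (satE v w π e) with hX
  -- linear forms
  have hlin : ∀ b (z : (W → A) × (V → B)), G b z = ∑ w', ∑ e, (if w e = w' then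
      (if v e = v0 then y e * (if π e (z.1 w') = b then 1 else 0) else 0) else 0) := by
    intro b z
    rw [sum_comm]
    refine sum_congr rfl fun e _ => ?_
    rw [sum_ite_eq, if_pos (mem_univ _)]
  have hdepI : ∀ b, Dep2 (∅ : Finset W) {v0} (I b) := by
    intro b z z' _ h
    simp only [hI]
    rw [h v0 (mem_singleton_self _)]
  have hdepJ : ∀ b, Dep2 (∅ : Finset W) {v0} (fun z => 1 - I b z) := by
    intro b z z' h1 h
    show 1 - I b z = 1 - I b z'
    rw [hdepI b z z' h1 h]
  have h1 : ∀ b, 0 ≤ L (fun z => (1 - I b z) * G b z ^ 2) := by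
    intro b
    have h2 := hL.psd ∅ {v0} (by simp) (fun z => 1 - I b z) (hdepJ b) (fun z => by
      simp only [hI]; split_ifs <;> norm_num) (fun w' a => ∑ e, (if w e = w' then
      (if v e = v0 then y e * (if π e a = b then 1 else 0) else 0) else 0)) (fun _ _ => 0)
    refine h2.trans (le_of_eq ?_)
    congr 1
    funext z
    rw [sum_const_zero, add_zero, hlin]
  have h2 : ∀ b, 0 ≤ L (fun z => I b z * (G b z - X) ^ 2) := by
    intro b
    have h3 := hL.psd ∅ {v0} (by simp) (I b) (hdepI b) (fun z => by
      simp only [hI]; split_ifs <;> norm_num) (fun w' a => ∑ e, (if w e = w' then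
      (if v e = v0 then y e * (if π e a = b then 1 else 0) else 0) else 0))
      (fun v' _ => if v' = v0 then -X else 0)
    refine h3.trans (le_of_eq ?_)
    congr 1
    funext z
    rw [sum_ite_eq', if_pos (mem_univ _), hlin, sub_eq_add_neg]
  have h3 : ∀ b, L (fun z => (1 - I b z) * G b z ^ 2) + L (fun z => I b z * (G b z - X) ^ 2) =
      L (fun z => G b z ^ 2) - 2 * X * L (fun z => I b z * G b z) + X ^ 2 * L (I b) := by
    intro b
    have e1 : (fun z => (1 - I b z) * G b z ^ 2) + (fun z => I b z * (G b z - X) ^ 2) =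
        (fun z => G b z ^ 2) - (2 * X) • (fun z => I b z * G b z) + (X ^ 2) • I b := by
      funext z
      simp only [Pi.add_apply, Pi.sub_apply, Pi.smul_apply, smul_eq_mul]
      ring
    rw [← map_add, e1, map_add, map_sub, map_smul, map_smul, smul_eq_mul, smul_eq_mul]
  have h4 : ∑ b, L (I b) = 1 := by
    rw [← map_sum, ← hL.one]
    congr 1
    funext z
    rw [Finset.sum_apply]
    simp only [hI]
    rw [sum_ite_eq, if_pos (mem_univ _)]
  have h5 : ∑ b, L (fun z => I b z * G b z) = X := by
    rw [← map_sum, hX]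
    have e1 : (∑ b, fun z => I b z * G b z) =
        ∑ e, (if v e = v0 then y e else 0) • satE v w π e := by
      funext z
      rw [Finset.sum_apply, Finset.sum_apply]
      simp only [hI, hG, mul_sum, Pi.smul_apply, smul_eq_mul]
      rw [sum_comm]
      refine sum_congr rfl fun e _ => ?_
      simp only [ite_mul, one_mul, zero_mul]
      rw [sum_ite_eq, if_pos (mem_univ _)]
      unfold satE
      by_cases h6 : v e = v0
      · rw [if_pos h6, if_pos h6, h6]
      · rw [if_neg h6, if_neg h6]
    rw [e1, map_sum]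
    refine sum_congr rfl fun e _ => ?_
    rw [map_smul, smul_eq_mul]
  have h6 : 0 ≤ ∑ b, (L (fun z => G b z ^ 2) - 2 * X * L (fun z => I b z * G b z) +
      X ^ 2 * L (I b)) := sum_nonneg fun b _ => by
    rw [← h3]
    exact add_nonneg (h1 b) (h2 b)
  rw [sum_add_distrib, sum_sub_distrib, ← mul_sum, ← mul_sum, h4, h5] at h6
  linarith

/-- correlation of the pairs of edges -/
theorem pair_corr (k : ℕ) (L : ((W → A) × (V → B) → ℝ) →ₗ[ℝ] ℝ) (hL : Mixed2 (k + 1) L)
    (a0 : A) (v : E → V) (w : E → W) (π : E → A → B) (ω : E → ℝ) (hω : ∀ e, 0 ≤ ω e) (c1 : ℝ)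
    (hc1 : 0 ≤ c1) (hsat : ∀ e, 0 < ω e → c1 ≤ L (satE v w π e)) (F : W ⊕ V → ℝ)
    (hF : ∀ z, 0 ≤ F z) :
    c1 ^ 2 * bil (K2 (fun e => (Sum.inl (w e) : W ⊕ V)) (fun e => Sum.inr (v e)) ω) F F ≤
      SatF (fun e => (Sum.inl (w e) : W ⊕ V)) (fun e => Sum.inr (v e)) π ω F (pj a0 L) := by
  set s : E → W ⊕ V := fun e => Sum.inl (w e) with hs
  set t : E → W ⊕ V := fun e => Sum.inr (v e) with ht
  -- the pair terms
  have h1 : ∀ e e', rl (π e) (π e') (pr2 (pj a0 L) (s e) (s e')) =
      ∑ b, L (fun z => (if π e (z.1 (w e)) = b then 1 else 0) *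
        (if π e' (z.1 (w e')) = b then 1 else 0)) := by
    intro e e'
    unfold rl
    have h2 : ∀ a a', (if π e a = π e' a' then pr2 (pj a0 L) (s e) (s e') a a' else 0) =
        L (fun z => if π e a = π e' a' then (if z.1 (w e) = a then 1 else 0) *
          (if z.1 (w e') = a' then 1 else 0) else 0) := by
      intro a a'
      by_cases h : π e a = π e' a'
      · simp only [if_pos h]
        rfl
      · simp only [if_neg h]
        exact (map_zero L).symm
    simp only [h2, ← map_sum]
    congr 1
    funext z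
    simp only [Finset.sum_apply]
    rw [sum_eq_single (z.1 (w e))]
    · rw [sum_eq_single (z.1 (w e'))]
      · rw [sum_eq_single (π e (z.1 (w e)))]
        · by_cases h : π e (z.1 (w e)) = π e' (z.1 (w e'))
          · simp [h]
          · have h' : ¬ π e' (z.1 (w e')) = π e (z.1 (w e)) := fun h'' => h h''.symm
            simp [h, h']
        · intro b _ hb
          simp [Ne.symm hb]
        · intro h; exact absurd (mem_univ _) h
      · intro a' _ ha'
        simp [Ne.symm ha']
      · intro h; exact absurd (mem_univ _) h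
    · intro a _ ha
      refine sum_eq_zero fun a' _ => ?_
      simp [Ne.symm ha]
    · intro h; exact absurd (mem_univ _) h
  have h2 : SatF s t π ω F (pj a0 L) = ∑ τ, (∑ b, L (fun z => (∑ e, if t e = τ then
      ω e * F (s e) * (if π e (z.1 (w e)) = b then 1 else 0) else 0) ^ 2)) / bd t ω τ := by
    have h3 : SatF s t π ω F (pj a0 L) = ∑ b, L (fun z => PS t ω fun e e' =>
        (F (s e) * (if π e (z.1 (w e)) = b then 1 else 0)) *
        (F (s e') * (if π e' (z.1 (w e')) = b then 1 else 0))) := by
      have h4 : ∀ b, L (fun z => PS t ω fun e e' =>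
        (F (s e) * (if π e (z.1 (w e)) = b then 1 else 0)) *
        (F (s e') * (if π e' (z.1 (w e')) = b then 1 else 0))) =
        ∑ e, ∑ e', pw t ω e e' * (F (s e) * F (s e')) *
          L (fun z => (if π e (z.1 (w e)) = b then 1 else 0) *
            (if π e' (z.1 (w e')) = b then 1 else 0)) := by
        intro b
        have h5 : (fun z : (W → A) × (V → B) => PS t ω fun e e' =>
          (F (s e) * (if π e (z.1 (w e)) = b then 1 else 0)) *
          (F (s e') * (if π e' (z.1 (w e')) = b then 1 else 0))) =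
          ∑ e, ∑ e', (pw t ω e e' * (F (s e) * F (s e'))) •
            (fun z : (W → A) × (V → B) => (if π e (z.1 (w e)) = b then (1 : ℝ) else 0) *
              (if π e' (z.1 (w e')) = b then 1 else 0)) := by
          funext z
          simp only [Finset.sum_apply, Pi.smul_apply, smul_eq_mul]
          unfold PS
          refine sum_congr rfl fun e _ => sum_congr rfl fun e' _ => ?_
          ring
        rw [h5, map_sum]
        refine sum_congr rfl fun e _ => ?_
        rw [map_sum]
        refine sum_congr rfl fun e' _ => ?_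
        rw [map_smul, smul_eq_mul]
      rw [sum_congr rfl fun b _ => h4 b, sum_comm]
      unfold SatF PS
      refine sum_congr rfl fun e _ => ?_
      rw [sum_comm]
      refine sum_congr rfl fun e' _ => ?_
      rw [← mul_sum]
      beta_reduce
      rw [h1]
      ring
    rw [h3]
    simp only [sum_div]
    rw [sum_comm]
    refine sum_congr rfl fun b _ => ?_
    have h4 : (fun z : (W → A) × (V → B) => PS t ω fun e e' =>
        (F (s e) * (if π e (z.1 (w e)) = b then 1 else 0)) *
        (F (s e') * (if π e' (z.1 (w e')) = b then 1 else 0))) =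
        ∑ τ, (1 / bd t ω τ) • (fun z : (W → A) × (V → B) => (∑ e, if t e = τ then
      ω e * F (s e) * (if π e (z.1 (w e)) = b then 1 else 0) else 0) ^ 2) := by
      funext z
      simp only [Finset.sum_apply, Pi.smul_apply, smul_eq_mul]
      rw [PS_sq t ω fun e => F (s e) * (if π e (z.1 (w e)) = b then 1 else 0)]
      refine sum_congr rfl fun τ _ => ?_
      rw [one_div, inv_mul_eq_div]
      congr 2
      refine sum_congr rfl fun e _ => ?_
      split_ifs <;> ring
    rw [h4, map_sum]
    refine sum_congr rfl fun τ _ => ?_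
    rw [map_smul, smul_eq_mul, one_div, inv_mul_eq_div]
  rw [h2, bil_K2, PS_sq t ω fun e => F (s e), mul_sum]
  refine sum_le_sum fun τ _ => ?_
  rw [← mul_div_assoc]
  refine div_le_div_of_nonneg_right ?_ (bd_nonneg t ω hω τ)
  rcases τ with w' | v0
  · have h3 : ∀ e, t e ≠ Sum.inl w' := fun e => by simp [ht]
    simp only [h3, if_false, sum_const_zero]
    have h4 : (0 : (W → A) × (V → B) → ℝ) = fun _ => (0 : ℝ) ^ 2 := by
      funext z; simp
    rw [← h4, map_zero]
    simp
  · have h3 := vertex_corr k L hL v w π v0 (fun e => ω e * F (s e))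
    have h4 : ∀ e, (t e = Sum.inr v0) = (v e = v0) := fun e => by simp [ht]
    simp only [h4]
    refine le_trans ?_ h3
    rw [← mul_pow]
    refine pow_le_pow_left₀ (mul_nonneg hc1 (sum_nonneg fun e _ => by
      split_ifs
      · exact mul_nonneg (hω e) (hF _)
      · exact le_rfl)) ?_ 2
    rw [mul_sum]
    refine sum_le_sum fun e _ => ?_
    by_cases h5 : v e = v0
    · rw [if_pos h5]
      rcases (hω e).eq_or_lt with h6 | h6
      · rw [← h6]; simp
      · rw [mul_comm]
        exact mul_le_mul_of_nonneg_left (hsat e h6) (mul_nonneg h6.le (hF _))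
    · rw [if_neg h5]; simp

end

end Pool.Agent.TH522.DG
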