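import Pool.Agent.TH522.DG.Main
import Pool.Agent.TH700.UG.Form

/-!
Local reductions from 3-SAT to projection games with perfect completeness.
-/

namespace Pool.Agent.TH522.DG

open Finset Pool.Agent.W888.GX Pool.Agent.TH700.UG

/-- The formula `F` is represented in the projection game with the edges `(u e, v e)` and the
constraints `π e (label of u e) = label of v e`, with locality `D` and perfect completeness: every
assignment `z` of the variables has honest labelings `encU z` and `encV z` of the two sides, each
label of which depends on at most `D` of the variables, and for every edge `e` there is a set `T e`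
of at most `D` variables such that the honest labelings satisfy `e` whenever `z` satisfies the
clauses of `F` all of whose variables are in `T e`. So if `z` satisfies `F` then its honest
labelings satisfy all edges, and this can be checked locally. -/
def Represents {n k : ℕ} {I U V A B E : Type} (F : I → Clause k n) (D : ℕ) (u : E → U) (v : E → V)
    (π : E → A → B) : Prop :=
  ∃ (encU : (Fin n → ZMod 2) → U → A) (encV : (Fin n → ZMod 2) → V → B)
    (T : E → Finset (Fin n)),
    (∀ x, ∃ S : Finset (Fin n), S.card ≤ D ∧ Reads (fun z => encU z x) S) ∧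
    (∀ y, ∃ S : Finset (Fin n), S.card ≤ D ∧ Reads (fun z => encV z y) S) ∧
    ∀ e, (T e).card ≤ D ∧ ∀ z, SatOn F (T e) z → π e (encU z (u e)) = encV z (v e)

section
variable {n D d : ℕ} {L : ((Fin n → ZMod 2) → ℝ) →ₗ[ℝ] ℝ} {U V A B : Type} [Fintype U] [Fintype V]

/-- composition of a functional with a local encoding, as a solution of the mixed hierarchy -/
theorem mixed_comp {k : ℕ} (hL : IsPseudoExpectation D L)
    (encU : (Fin n → ZMod 2) → U → A) (encV : (Fin n → ZMod 2) → V → B)
    (hU : ∀ x, ∃ S : Finset (Fin n), S.card ≤ d ∧ Reads (fun z => encU z x) S)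
    (hV : ∀ y, ∃ S : Finset (Fin n), S.card ≤ d ∧ Reads (fun z => encV z y) S)
    (hD : (k + 2) * d ≤ D) :
    Mixed2 k (L.comp (LinearMap.funLeft ℝ ℝ fun z => (encU z, encV z))) := by
  classical
  choose S hS hR using hU
  choose S' hS' hR' using hV
  have hreadU : ∀ (W : Finset U) (W' : Finset V) (f : (U → A) × (V → B) → ℝ), Dep2 W W' f →
      Reads (fun z => f (encU z, encV z)) (W.biUnion S ∪ W'.biUnion S') := by
    intro W W' f hf x y hxy
    refine hf _ _ (fun v hv => ?_) fun v hv => ?_
    · exact hR v x y fun i hi => hxy i (mem_union_left _ (mem_biUnion.2 ⟨v, hv, hi⟩))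
    · exact hR' v x y fun i hi => hxy i (mem_union_right _ (mem_biUnion.2 ⟨v, hv, hi⟩))
  have hcardU : ∀ (W : Finset U) (W' : Finset V),
      (W.biUnion S ∪ W'.biUnion S').card ≤ (W.card + W'.card) * d := by
    intro W W'
    have h1 : (W.biUnion S).card ≤ W.card * d :=
      card_biUnion_le.trans ((Finset.sum_le_card_nsmul W _ d fun v _ => hS v).trans
        (by rw [smul_eq_mul]))
    have h2 : (W'.biUnion S').card ≤ W'.card * d :=
      card_biUnion_le.trans ((Finset.sum_le_card_nsmul W' _ d fun v _ => hS' v).trans
        (by rw [smul_eq_mul]))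
    calc _ ≤ _ := card_union_le _ _
      _ ≤ W.card * d + W'.card * d := add_le_add h1 h2
      _ = _ := by ring
  refine ⟨?_, fun W W' hW f hf hf0 => ?_, fun W W' hW g hg hg0 c c' => ?_⟩
  · rw [LinearMap.comp_apply]
    exact hL.1
  · have h1 := hL.2 (fun z => Real.sqrt (f (encU z, encV z)))
      (mem_low (S := W.biUnion S ∪ W'.biUnion S')
      ((hcardU W W').trans ((Nat.mul_le_mul_right d hW).trans hD))
      (hreadU W W' (fun x => Real.sqrt (f x)) fun x y h1 h2 =>
        congrArg Real.sqrt (hf x y h1 h2)))
    have h2 : (fun z => (fun z => Real.sqrt (f (encU z, encV z))) z ^ 2) =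
        fun z => f (encU z, encV z) := by
      funext z
      exact Real.sq_sqrt (hf0 _)
    rw [h2] at h1
    exact h1
  · have hmem : (fun z => ∑ w, Real.sqrt (g (encU z, encV z)) * c w (encU z w) +
        ∑ v, Real.sqrt (g (encU z, encV z)) * c' v (encV z v)) ∈
        LowDegree (Fin n) (ZMod 2) D := by
      have h0 : (fun z => ∑ w, Real.sqrt (g (encU z, encV z)) * c w (encU z w) +
          ∑ v, Real.sqrt (g (encU z, encV z)) * c' v (encV z v)) =
          (∑ w, fun z => Real.sqrt (g (encU z, encV z)) * c w (encU z w)) +
          ∑ v, fun z => Real.sqrt (g (encU z, encV z)) * c' v (encV z v) := by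
        funext z
        rw [Pi.add_apply, Finset.sum_apply, Finset.sum_apply]
      rw [h0]
      refine Submodule.add_mem _ (Submodule.sum_mem _ fun w _ => ?_)
        (Submodule.sum_mem _ fun v _ => ?_)
      · refine mem_low (S := (insert w W).biUnion S ∪ W'.biUnion S') ?_ ?_
        · refine (hcardU _ _).trans (le_trans (Nat.mul_le_mul_right d ?_) hD)
          have := card_insert_le w W
          omega
        · refine hreadU (insert w W) W' (fun x => Real.sqrt (g x) * c w (x.1 w)) ?_
          intro x y h1 h2
          show Real.sqrt (g x) * c w (x.1 w) = Real.sqrt (g y) * c w (y.1 w)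
          rw [hg x y (fun i hi => h1 i (mem_insert_of_mem hi)) h2, h1 w (mem_insert_self _ _)]
      · refine mem_low (S := W.biUnion S ∪ (insert v W').biUnion S') ?_ ?_
        · refine (hcardU _ _).trans (le_trans (Nat.mul_le_mul_right d ?_) hD)
          have := card_insert_le v W'
          omega
        · refine hreadU W (insert v W') (fun x => Real.sqrt (g x) * c' v (x.2 v)) ?_
          intro x y h1 h2
          show Real.sqrt (g x) * c' v (x.2 v) = Real.sqrt (g y) * c' v (y.2 v)
          rw [hg x y h1 (fun i hi => h2 i (mem_insert_of_mem hi)), h2 v (mem_insert_self _ _)]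
    have h1 := hL.2 _ hmem
    have h2 : (fun z => (fun z => ∑ w, Real.sqrt (g (encU z, encV z)) * c w (encU z w) +
        ∑ v, Real.sqrt (g (encU z, encV z)) * c' v (encV z v)) z ^ 2) =
        fun z => g (encU z, encV z) * (∑ w, c w (encU z w) + ∑ v, c' v (encV z v)) ^ 2 := by
      funext z
      simp only []
      rw [← mul_sum, ← mul_sum, ← mul_add, mul_pow, Real.sq_sqrt (hg0 _)]
    rw [h2] at h1
    exact h1

variable {I E : Type} [DecidableEq B] {kk : ℕ}

/-- the pseudo-expectation of the indicator that an edge is violated -/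
theorem edge_zero (hL : IsPseudoExpectation D L) (F : I → Clause kk n)
    (hF : ∀ i, ∀ u : (Fin n → ZMod 2) → ℝ, (∀ x, (Satisfies x (F i) → u x = 0) ∧
      (¬ Satisfies x (F i) → u x = 1)) → L u = 0)
    (f : (Fin n → ZMod 2) → A) (g : (Fin n → ZMod 2) → B) (p : A → B) (S S' T : Finset (Fin n))
    (hf : Reads f S) (hg : Reads g S') (hT : ∀ z, SatOn F T z → p (f z) = g z)
    (hc : (S ∪ S' ∪ T).card ≤ D) : L (fun z => if p (f z) = g z then 0 else 1) = 0 := by
  have hr : ∀ s : ℝ, Reads (fun z => s * (if p (f z) = g z then 0 else 1)) (S ∪ S' ∪ T) := by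
    intro s x y hxy
    have e1 := hf x y fun i hi => hxy i (mem_union_left _ (mem_union_left _ hi))
    have e2 := hg x y fun i hi => hxy i (mem_union_left _ (mem_union_right _ hi))
    show s * (if p (f x) = g x then 0 else 1) = s * (if p (f y) = g y then 0 else 1)
    rw [e1, e2]
  have hz : ∀ z, SatOn F (S ∪ S' ∪ T) z → p (f z) = g z := fun z hz =>
    hT z fun i hi => hz i fun l => mem_union_right _ (hi l)
  have p1 := pe_local hL F hF _ hc _ (hr 1) fun z hs => by rw [if_pos (hz z hs)]; simp
  have p2 := pe_local hL F hF _ hc _ (hr (-1)) fun z hs => by rw [if_pos (hz z hs)]; simp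
  have e4 : (fun z => (-1 : ℝ) * (if p (f z) = g z then 0 else 1)) =
      -fun z => (if p (f z) = g z then 0 else 1) := by
    funext z
    rw [Pi.neg_apply, neg_one_mul]
  rw [e4, map_neg] at p2
  simp only [one_mul] at p1
  linarith

omit [Fintype V] in
/-- few vertices: all edges can be satisfied -/
theorem few_vertices (hL : IsPseudoExpectation D L) (F : I → Clause kk n)
    (hF : ∀ i, ∀ u : (Fin n → ZMod 2) → ℝ, (∀ x, (Satisfies x (F i) → u x = 0) ∧
      (¬ Satisfies x (F i) → u x = 1)) → L u = 0)
    (u : E → U) (v : E → V) (π : E → A → B) (hR : Represents F d u v π)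
    (hD : (Fintype.card U + 2) * d ≤ D) :
    ∃ (M : U → A) (N : V → B), ∀ e, π e (M (u e)) = N (v e) := by
  classical
  obtain ⟨encU, encV, T, hU, hV, hT⟩ := hR
  choose S hS hRS using hU
  choose S' hS' hRS' using hV
  obtain ⟨X, hX⟩ : ∃ X : Finset (Fin n), X = univ.biUnion S := ⟨_, rfl⟩
  have hXc : X.card ≤ Fintype.card U * d := by
    rw [hX]
    exact card_biUnion_le.trans ((Finset.sum_le_card_nsmul univ _ d fun v _ => hS v).trans
      (by rw [smul_eq_mul, card_univ]))
  -- a partial assignment of positive probability
  have hα : ∃ α : Fin n → ZMod 2, 0 < L (fun z => if restr X z = α then 1 else 0) := by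
    by_contra hcon
    push Not at hcon
    have h1 : (fun _ : Fin n → ZMod 2 => (1 : ℝ)) =
        ∑ α : Fin n → ZMod 2, fun z => if restr X z = α then 1 else 0 := by
      funext z
      rw [Finset.sum_apply, Finset.sum_ite_eq, if_pos (mem_univ _)]
    have h2 := hL.1
    rw [h1, map_sum] at h2
    have h3 : ∑ α : Fin n → ZMod 2, L (fun z => if restr X z = α then 1 else 0) ≤ 0 :=
      Finset.sum_nonpos fun α _ => hcon α
    linarith
  obtain ⟨α, hα⟩ := hα
  have hrX : Reads (fun z => if restr X z = α then (1 : ℝ) else 0) X := by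
    intro x y h
    show (if restr X x = α then (1 : ℝ) else 0) = if restr X y = α then (1 : ℝ) else 0
    rw [restr_congr X h]
  -- labels of the left vertices
  have hN : ∀ y, ∃ z0 : Fin n → ZMod 2,
      0 < L (fun z => if restr X z = α ∧ restr (S' y) z = z0 then 1 else 0) := by
    intro y
    by_contra hcon
    push Not at hcon
    have h1 : (fun z : Fin n → ZMod 2 => if restr X z = α then (1 : ℝ) else 0) =
        ∑ z0 : Fin n → ZMod 2, fun z =>
          if restr X z = α ∧ restr (S' y) z = z0 then (1 : ℝ) else 0 := by
      funext z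
      rw [Finset.sum_apply]
      by_cases h : restr X z = α
      · simp only [h, true_and]
        rw [Finset.sum_ite_eq, if_pos (mem_univ _), if_pos trivial]
      · simp [h]
    rw [h1, map_sum] at hα
    have h3 : ∑ z0 : Fin n → ZMod 2,
        L (fun z => if restr X z = α ∧ restr (S' y) z = z0 then 1 else 0) ≤ 0 :=
      Finset.sum_nonpos fun z0 _ => hcon z0
    linarith
  choose z0 hz0 using hN
  refine ⟨encU α, fun y => encV (z0 y) y, fun e => ?_⟩
  by_contra hne
  obtain ⟨y, hy⟩ : ∃ y, y = v e := ⟨_, rfl⟩
  have hc1 : (S (u e) ∪ S' y ∪ T e).card ≤ D := by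
    refine (card_union_le _ _).trans ?_
    have h1 := card_union_le (S (u e)) (S' y)
    have h2 := hS (u e)
    have h3 := hS' y
    have h4 := (hT e).1
    have h5 : 1 ≤ Fintype.card U := Fintype.card_pos_iff.2 ⟨u e⟩
    nlinarith
  have hzero := edge_zero hL F hF (fun z => encU z (u e)) (fun z => encV z y) (π e) (S (u e))
    (S' y) (T e) (hRS _) (hRS' _) (fun z hz => by rw [hy]; exact (hT e).2 z hz) hc1
  -- the function below is a zero-one function of few variables
  have hle : 0 ≤ L ((fun z => if π e (encU z (u e)) = encV z y then (0 : ℝ) else 1) -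
      fun z => if restr X z = α ∧ restr (S' y) z = z0 y then (1 : ℝ) else 0) := by
    refine pe_01 hL (S := X ∪ S' y) ?_ ?_ ?_
    · refine (card_union_le _ _).trans ?_
      have h3 := hS' y
      nlinarith
    · intro x x' h
      rw [Pi.sub_apply, Pi.sub_apply]
      have e1 : encU x (u e) = encU x' (u e) := hRS (u e) x x' fun i hi =>
        h i (mem_union_left _ (by rw [hX]; exact mem_biUnion.2 ⟨u e, mem_univ _, hi⟩))
      have e2 : encV x y = encV x' y := hRS' y x x' fun i hi => h i (mem_union_right _ hi)
      have e3 : restr X x = restr X x' := restr_congr X fun i hi => h i (mem_union_left _ hi)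
      have e4 : restr (S' y) x = restr (S' y) x' :=
        restr_congr _ fun i hi => h i (mem_union_right _ hi)
      rw [e1, e2, e3, e4]
    · intro z
      rw [Pi.sub_apply]
      by_cases h1 : restr X z = α ∧ restr (S' y) z = z0 y
      · have h2 : ¬ π e (encU z (u e)) = encV z y := by
          intro h3
          apply hne
          have e1 : encU z (u e) = encU α (u e) := hRS (u e) z α fun i hi => by
            rw [← h1.1, restr_apply X z
              (by rw [hX]; exact mem_biUnion.2 ⟨u e, mem_univ _, hi⟩)]
          have e2 : encV z y = encV (z0 y) y := hRS' y z (z0 y) fun i hi => by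
            rw [← h1.2, restr_apply _ z hi]
          rw [← e1, h3, e2, hy]
        rw [if_neg h2, if_pos h1]
        left; norm_num
      · rw [if_neg h1]
        by_cases h2 : π e (encU z (u e)) = encV z y
        · rw [if_pos h2]; left; norm_num
        · rw [if_neg h2]; right; norm_num
  rw [map_sub, hzero] at hle
  have := hz0 y
  linarith

end

end Pool.Agent.TH522.DG
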