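import Pool.Agent.TH522.DG.Hier

/-!
Rounding of the mixed hierarchy for projection games with fibres of at most `d` elements.
-/

namespace Pool.Agent.TH522.DG

open Finset Pool.Agent.H647R3.UG Pool.Agent.H573R3.SL Pool.Agent.TH522.UG Pool.Agent.TH522.US

/-- the number of conditioning steps -/
theorem numk (n d : ℕ) (hd : 0 < d) (c l x : ℝ) (hc : 0 < c) (hc1 : c ≤ 1)
    (hx : x = Real.log (256 * d / c ^ 4) / l) (hl : Real.log (256 * d / c ^ 4) ≤ l)
    (hln : l ≤ Real.log n) (k : ℝ) (hk : (n : ℝ) ^ (9 * (x * Real.log (2 / x))) ≤ k) :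
    1 ≤ k * (c ^ 2 / 4 / 2 * (((c ^ 2 / 4 / 4) ^ 2 / d) ^ 2 *
      (Real.exp (-(2 * Real.log (1 / ((c ^ 2 / 4 / 4) ^ 2 / d)) *
        (Real.log (1 / x) / (l / (2 * Real.log n)) + 1))) * (n : ℝ) ^ (-x)))) := by
  have hd0 : (0 : ℝ) < d := by exact_mod_cast hd
  have hd1 : (1 : ℝ) ≤ d := by exact_mod_cast hd
  have hc2 : c ^ 2 ≤ 1 := pow_le_one₀ hc.le hc1
  have hc4 : c ^ 4 ≤ 1 := pow_le_one₀ hc.le hc1
  have hR : (256 : ℝ) ≤ 256 * d / c ^ 4 := by
    rw [le_div_iff₀ (by positivity)]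
    nlinarith [pow_pos hc 4]
  set R : ℝ := 256 * d / c ^ 4 with hRd
  have hR0 : 0 < R := by linarith
  set Λ := Real.log R with hΛ
  have hΛ1 : 0 < Λ := Real.log_pos (by linarith)
  have hl0 : 0 < l := by linarith
  have hlog : 0 < Real.log n := by linarith
  have hn0 : (0 : ℝ) < n := by
    rcases Nat.eq_zero_or_pos n with h | h
    · rw [h] at hlog; simp at hlog
    · exact_mod_cast h
  have hx0 : 0 < x := by rw [hx]; positivity
  have hx1 : x ≤ 1 := by rw [hx, div_le_one hl0]; exact hl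
  have hxl : x * l = Λ := by rw [hx]; field_simp
  have e1 : (c ^ 2 / 4 / 4) ^ 2 / d = R⁻¹ := by
    rw [hRd]
    field_simp
    ring
  rw [e1]
  have e2 : (1 : ℝ) / R⁻¹ = R := by rw [one_div, inv_inv]
  rw [e2, ← hΛ]
  have e3 : 2 * Λ * (Real.log (1 / x) / (l / (2 * Real.log n)) + 1) =
      4 * (x * Real.log (1 / x)) * Real.log n + 2 * Λ := by
    rw [← hxl]
    field_simp
    ring
  rw [e3]
  have e4 : R⁻¹ = Real.exp (-Λ) := by rw [Real.exp_neg, hΛ, Real.exp_log hR0]
  have h1 : Real.exp (-Λ) ≤ c ^ 2 / 4 / 2 := by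
    rw [← e4, hRd, inv_div, div_le_iff₀ (by positivity)]
    have h2 : c ^ 4 ≤ c ^ 2 := by
      calc c ^ 4 = c ^ 2 * c ^ 2 := by ring
        _ ≤ c ^ 2 * 1 := mul_le_mul_of_nonneg_left hc2 (by positivity)
        _ = c ^ 2 := mul_one _
    nlinarith [pow_pos hc 2]
  have hk0 : 0 ≤ k := le_trans (Real.rpow_nonneg hn0.le _) hk
  have hlogx : 0 ≤ Real.log (1 / x) := Real.log_nonneg (by rw [le_div_iff₀ hx0]; linarith)
  have hlog2 : Real.log (2 / x) = Real.log 2 + Real.log (1 / x) := by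
    rw [← Real.log_mul (by norm_num) (by positivity)]
    congr 1
    ring
  have hl2 := Real.log_two_gt_d9
  rw [e4, Real.rpow_def_of_pos hn0]
  rw [Real.rpow_def_of_pos hn0] at hk
  have h3 : Real.exp (Real.log n * (9 * (x * Real.log (2 / x)))) *
      (Real.exp (-Λ) * (Real.exp (-Λ) ^ 2 *
      (Real.exp (-(4 * (x * Real.log (1 / x)) * Real.log n + 2 * Λ)) *
        Real.exp (Real.log n * -x)))) ≤
      k * (c ^ 2 / 4 / 2 * (Real.exp (-Λ) ^ 2 *
      (Real.exp (-(4 * (x * Real.log (1 / x)) * Real.log n + 2 * Λ)) *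
        Real.exp (Real.log n * -x)))) := by
    refine mul_le_mul hk ?_ (by positivity) hk0
    exact mul_le_mul_of_nonneg_right h1 (by positivity)
  refine le_trans ?_ h3
  rw [← Real.exp_nat_mul, ← Real.exp_add, ← Real.exp_add, ← Real.exp_add, ← Real.exp_add]
  apply Real.one_le_exp
  push_cast
  have h4 : Λ ≤ x * Real.log n := by
    rw [← hxl]
    exact mul_le_mul_of_nonneg_left hln hx0.le
  rw [hlog2]
  have h5 : 0 ≤ x * Real.log n := by positivity
  have h6 : 0 ≤ x * Real.log (1 / x) * Real.log n := by positivity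
  have h7 : 6.2 * (x * Real.log n) ≤ 9 * Real.log 2 * (x * Real.log n) :=
    mul_le_mul_of_nonneg_right (by linarith) h5
  nlinarith

section
variable {V W A B E : Type} [Fintype V] [Fintype W] [Fintype E] [Fintype A] [Fintype B]
  [DecidableEq B]

/-- rounding of the mixed hierarchy -/
theorem core (v : E → V) (w : E → W) (π : E → A → B) (d : ℕ)
    (hfib : ∀ e, Fib d (π e)) (c l x : ℝ) (hc : 0 < c) (hc1 : c ≤ 1)
    (hx : x = Real.log (256 * d / c ^ 4) / l) (hl0 : 0 < l) (hl : Real.log (256 * d / c ^ 4) ≤ l)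
    (hln : l ≤ Real.log (Fintype.card W)) (k : ℕ)
    (hk : (Fintype.card W : ℝ) ^ (9 * (x * Real.log (2 / x))) ≤ k)
    (L : ((W → A) × (V → B) → ℝ) →ₗ[ℝ] ℝ) (hL : Mixed2 k L)
    (hval : c * (Fintype.card E : ℝ) ≤ ∑ e, L (satE v w π e)) :
    ∃ (M : W → A) (N : V → B), c ^ 5 * Real.exp (-l) / 2 ^ 19 * (Fintype.card E : ℝ) ≤
      ((univ.filter fun e => π e (M (w e)) = N (v e)).card : ℝ) := by
  classical
  have hne : Nonempty ((W → A) × (V → B)) := by
    by_contra hcon
    rw [not_nonempty_iff] at hcon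
    have h1 := hL.one
    have h2 : (fun _ : (W → A) × (V → B) => (1 : ℝ)) = 0 := Subsingleton.elim _ _
    rw [h2, map_zero] at h1
    exact zero_ne_one h1
  obtain ⟨M0, N0⟩ := hne
  rcases Nat.eq_zero_or_pos (Fintype.card E) with hE | hE
  · refine ⟨M0, N0, ?_⟩
    rw [hE]
    simp
  have hE0 : (0 : ℝ) < Fintype.card E := by exact_mod_cast hE
  obtain ⟨e0⟩ : Nonempty E := Fintype.card_pos_iff.1 hE
  have hA : Nonempty A := ⟨M0 (w e0)⟩
  have hB : Nonempty B := ⟨N0 (v e0)⟩
  set a0 : A := M0 (w e0) with ha0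
  have hd : 0 < d := by
    have h1 := hfib e0 (π e0 a0)
    have h2 : 0 < (univ.filter fun a => π e0 a = π e0 a0).card :=
      card_pos.2 ⟨a0, by simp⟩
    omega
  have hd0 : (0 : ℝ) < d := by exact_mod_cast hd
  have hlog : 0 < Real.log (Fintype.card W) := by linarith
  have hn : 0 < Fintype.card W := by
    rcases Nat.eq_zero_or_pos (Fintype.card W) with h | h
    · rw [h] at hlog; simp at hlog
    · exact h
  have hn0 : (0 : ℝ) < Fintype.card W := by exact_mod_cast hn
  have hc4 : c ^ 4 ≤ 1 := pow_le_one₀ hc.le hc1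
  have hR : (256 : ℝ) ≤ 256 * d / c ^ 4 := by
    have hd1 : (1 : ℝ) ≤ d := by exact_mod_cast hd
    rw [le_div_iff₀ (by positivity)]
    nlinarith [pow_pos hc 4]
  have hΛ : 0 < Real.log (256 * d / c ^ 4) := Real.log_pos (by linarith)
  have hx0 : 0 < x := by rw [hx]; positivity
  have hx1 : x ≤ 1 := by rw [hx, div_le_one hl0]; exact hl
  have hkr := numk (Fintype.card W) d hd c l x hc hc1 hx hl hln k hk
  have hk1 : 1 ≤ k := by
    by_contra hcon
    have h0 : k = 0 := by omega
    rw [h0] at hkr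
    norm_num at hkr
  obtain ⟨k', rfl⟩ : ∃ k', k = k' + 1 := ⟨k - 1, by omega⟩
  have hsat0 : ∀ e, 0 ≤ L (satE v w π e) ∧ L (satE v w π e) ≤ 1 := by
    intro e
    have hdep : Dep2 {w e} {v e} (satE v w π e) := by
      intro z z' h1 h2
      unfold satE
      rw [h1 _ (mem_singleton_self _), h2 _ (mem_singleton_self _)]
    constructor
    · refine hL.junta {w e} {v e} (by simp) _ hdep fun z => ?_
      unfold satE
      split_ifs <;> norm_num
    · have h1 : 0 ≤ L (fun z => 1 - satE v w π e z) := by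
        refine hL.junta {w e} {v e} (by simp) _ (fun z z' h1 h2 => ?_) fun z => ?_
        · show 1 - satE v w π e z = 1 - satE v w π e z'
          rw [hdep z z' h1 h2]
        · unfold satE
          split_ifs <;> norm_num
      have h2 : (fun z => 1 - satE v w π e z) = (fun _ => (1 : ℝ)) - satE v w π e := rfl
      rw [h2, map_sub, hL.one] at h1
      linarith
  -- good edges
  set G : E → Prop := fun e => c / 2 ≤ L (satE v w π e) with hG
  set ω : E → ℝ := fun e => if G e then (1 : ℝ) else 0 with hωd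
  have hω : ∀ e, 0 ≤ ω e := fun e => by simp only [hωd]; split_ifs <;> norm_num
  have hgood : c / 2 * (Fintype.card E : ℝ) ≤ ∑ e, ω e := by
    have h1 : ∀ e, L (satE v w π e) ≤ c / 2 + ω e := by
      intro e
      simp only [hωd]
      by_cases h : G e
      · rw [if_pos h]
        have := (hsat0 e).2
        linarith
      · rw [if_neg h]
        simp only [hG, not_le] at h
        linarith
    have h2 := sum_le_sum fun e (_ : e ∈ (univ : Finset E)) => h1 e
    rw [sum_add_distrib, sum_const, card_univ, nsmul_eq_mul] at h2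
    linarith
  have hD : 0 < ∑ e, ω e := lt_of_lt_of_le (by positivity) hgood
  have hpair := pair_corr k' L hL a0 v w π ω hω (c / 2) (by positivity) (fun e he => by
    by_contra hcon
    have h1 : ω e = 0 := by
      simp only [hωd]
      rw [if_neg]
      exact hcon
    linarith)
  set s : E → W ⊕ V := fun e => Sum.inl (w e) with hs
  set t : E → W ⊕ V := fun e => Sum.inr (v e) with ht
  have hPL := pj_mixed a0 (k' + 1) L hL
  have hκ0 : 0 < l / (2 * Real.log (Fintype.card W)) := by positivity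
  have hκ1 : l / (2 * Real.log (Fintype.card W)) < 1 := by
    rw [div_lt_one (by positivity)]
    linarith
  have hβe : (Fintype.card W : ℝ) ^ (-(2 * (l / (2 * Real.log (Fintype.card W))))) =
      Real.exp (-l) := by
    rw [Real.rpow_def_of_pos hn0]
    congr 1
    field_simp
  set U : Finset (W ⊕ V) := univ.map Function.Embedding.inl with hU
  have hUc : U.card = Fintype.card W := by rw [hU, card_map, card_univ]
  have hsU : ∀ e, s e ∈ U := fun e => by simp [hs, hU]
  have hcc : (c / 2) ^ 2 = c ^ 2 / 4 := by ring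
  rw [hcc] at hpair
  have hcsq : c ^ 2 ≤ 1 := pow_le_one₀ hc.le hc1
  have hpart := fun (U0 : Finset (W ⊕ V)) (hU0 : U0 ⊆ U) =>
    part_round s t π d hd hfib ω hω hD (Fintype.card W) hn (l / (2 * Real.log (Fintype.card W))) x
      (c ^ 2 / 4) hκ0 hκ1 hx0 hx1 (by positivity) (by linarith) (k' + 1) hkr (pj a0 L) hPL hpair
      U0 (by rw [← hUc]; exact card_le_card hU0)
  rw [hβe] at hpart
  obtain ⟨X, Y, hXY⟩ := two_sided s t π ω hω ((c ^ 2 / 4) ^ 2 * Real.exp (-l) / 4096)
    (by positivity) U hsU hpart (fun _ a => if a = a0 then 1 else 0)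
    ⟨fun _ a => by beta_reduce; split_ifs <;> norm_num, fun _ => by simp⟩
  refine ⟨fun w' => X (Sum.inl w'), fun v' => Y (Sum.inr v'), ?_⟩
  have h1 : ∑ e, ω e * (if π e (X (s e)) = Y (t e) then 1 else 0) ≤
      ((univ.filter fun e => π e (X (Sum.inl (w e))) = Y (Sum.inr (v e))).card : ℝ) := by
    rw [card_filter]
    push_cast
    refine sum_le_sum fun e _ => ?_
    simp only [hωd, hs, ht]
    split_ifs <;> norm_num
  refine le_trans ?_ (hXY.trans h1)
  have h2 : (c ^ 2 / 4) ^ 2 * Real.exp (-l) / 4096 * (c / 2 * (Fintype.card E : ℝ)) ≤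
      (c ^ 2 / 4) ^ 2 * Real.exp (-l) / 4096 * ∑ e, ω e :=
    mul_le_mul_of_nonneg_left hgood (by positivity)
  have h3 : c ^ 5 * Real.exp (-l) / 2 ^ 19 * (Fintype.card E : ℝ) =
      (c ^ 2 / 4) ^ 2 * Real.exp (-l) / 4096 * (c / 2 * (Fintype.card E : ℝ)) / 4 := by
    ring
  rw [h3]
  linarith

end

end Pool.Agent.TH522.DG
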