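import Pool.Agent.TH522.DG.Chain
import Pool.Agent.TH522.US.Two
import Pool.Agent.TH522.US.Round
import Pool.Agent.TH522.UG.Mixed

/-!
Pairs of projections with a common target: correlation forces the kernel to be large.
-/

namespace Pool.Agent.TH522.DG

open Finset Pool.Agent.H647R3.UG Pool.Agent.H573R3.SL Pool.Agent.TH522.UG Pool.Agent.TH522.US

/-- total weight of the pairs of labels with the same image -/
noncomputable def rl {A B : Type} [Fintype A] [DecidableEq B] (p q : A → B) (P : A → A → ℝ) : ℝ :=
  ∑ a, ∑ b, if p a = q b then P a b else 0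

/-- all fibres have at most `d` elements -/
def Fib {A B : Type} [Fintype A] [DecidableEq B] (d : ℕ) (p : A → B) : Prop :=
  ∀ b, (univ.filter fun a => p a = b).card ≤ d

section
variable {A B : Type} [Fintype A] [DecidableEq B]

theorem rl_nonneg (p q : A → B) (P : A → A → ℝ) (h : ∀ a b, 0 ≤ P a b) : 0 ≤ rl p q P :=
  sum_nonneg fun a _ => sum_nonneg fun b _ => by split_ifs; exacts [h a b, le_rfl]

theorem rl_sub (p q : A → B) (P Q : A → A → ℝ) :
    rl p q (fun a b => P a b - Q a b) = rl p q P - rl p q Q := by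
  unfold rl
  rw [← sum_sub_distrib]
  refine sum_congr rfl fun a _ => ?_
  rw [← sum_sub_distrib]
  refine sum_congr rfl fun b _ => ?_
  split_ifs <;> ring

theorem rl_le_one {r : A → A → ℝ} {x y : A → ℝ} (h : IsLaw r x y) (p q : A → B) :
    rl p q r ≤ 1 := by
  have h1 : rl p q r ≤ ∑ a, ∑ b, r a b :=
    sum_le_sum fun a _ => sum_le_sum fun b _ => by
      split_ifs
      · exact le_rfl
      · exact h.nonneg a b
  refine h1.trans (le_of_eq ?_)
  rw [sum_congr rfl fun a _ => h.left a, h.one]

/-- the kernel of two correlated labels is large -/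
theorem rl_ker {r : A → A → ℝ} {x y : A → ℝ} (h : IsLaw r x y) (d : ℕ) (p q : A → B)
    (hp : Fib d p) (hq : Fib d q) :
    (rl p q r - rl p q (fun a b => x a * y b)) ^ 2 ≤ d * ker r x y := by
  have hx0 : ∀ a, 0 ≤ x a := fun a => by rw [← h.left]; exact sum_nonneg fun b _ => h.nonneg a b
  have hy0 : ∀ b, 0 ≤ y b := fun b => by rw [← h.right]; exact sum_nonneg fun a _ => h.nonneg a b
  have hy1 : ∑ b, y b = 1 := by
    rw [← h.one]
    simp only [← h.left, ← h.right]
    exact sum_comm
  have hrx : ∀ a b, r a b ≤ x a := fun a b => by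
    rw [← h.left]; exact single_le_sum (fun b _ => h.nonneg a b) (mem_univ b)
  have hry : ∀ a b, r a b ≤ y b := fun a b => by
    rw [← h.right]
    exact single_le_sum (f := fun a => r a b) (fun a _ => h.nonneg a b) (mem_univ a)
  set R : A × A → ℝ := fun i => if p i.1 = q i.2 then r i.1 i.2 - x i.1 * y i.2 else 0 with hR
  set f : A × A → ℝ := fun i => (r i.1 i.2 - x i.1 * y i.2) ^ 2 / Real.sqrt (x i.1 * y i.2) with hf
  set g : A × A → ℝ := fun i => if p i.1 = q i.2 then Real.sqrt (x i.1 * y i.2) else 0 with hg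
  have h1 : rl p q r - rl p q (fun a b => x a * y b) = ∑ i : A × A, R i := by
    rw [← rl_sub, Fintype.sum_prod_type]
    rfl
  have h2 : ker r x y = ∑ i : A × A, f i := by
    rw [Fintype.sum_prod_type]
    rfl
  have hf0 : ∀ i, 0 ≤ f i := fun i => div_nonneg (sq_nonneg _) (Real.sqrt_nonneg _)
  have hg0 : ∀ i, 0 ≤ g i := fun i => by
    simp only [hg]; split_ifs; exacts [Real.sqrt_nonneg _, le_rfl]
  have h3 : (∑ i : A × A, R i) ^ 2 ≤ (∑ i : A × A, f i) * ∑ i : A × A, g i := by
    refine sum_sq_le_sum_mul_sum_of_sq_le_mul _ (fun i _ => hf0 i) (fun i _ => hg0 i)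
      fun i _ => ?_
    simp only [hR, hf, hg]
    by_cases hi : p i.1 = q i.2
    · rw [if_pos hi, if_pos hi]
      rcases (Real.sqrt_nonneg (x i.1 * y i.2)).eq_or_lt with h4 | h4
      · have h5 : x i.1 * y i.2 = 0 :=
          (Real.sqrt_eq_zero (mul_nonneg (hx0 _) (hy0 _))).1 h4.symm
        have h6 : r i.1 i.2 = 0 := by
          refine le_antisymm ?_ (h.nonneg _ _)
          rcases mul_eq_zero.1 h5 with h7 | h7
          · rw [← h7]; exact hrx _ _
          · rw [← h7]; exact hry _ _
        rw [h6, h5]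
        simp
      · rw [div_mul_cancel₀ _ h4.ne']
    · rw [if_neg hi, if_neg hi]
      simp
  have h4 : ∑ i : A × A, g i ≤ d := by
    have h5 : ∀ i : A × A, g i ≤ (if p i.1 = q i.2 then x i.1 else 0) / 2 +
        (if p i.1 = q i.2 then y i.2 else 0) / 2 := by
      intro i
      simp only [hg]
      by_cases hi : p i.1 = q i.2
      · rw [if_pos hi, if_pos hi, if_pos hi]
        rw [← add_div, le_div_iff₀ (by norm_num)]
        have h6 := Real.sq_sqrt (mul_nonneg (hx0 i.1) (hy0 i.2))
        have h7 := Real.sqrt_nonneg (x i.1 * y i.2)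
        refine abs_le_of_sq_le_sq' ?_ (add_nonneg (hx0 _) (hy0 _)) |>.2
        nlinarith [sq_nonneg (x i.1 - y i.2)]
      · rw [if_neg hi, if_neg hi, if_neg hi]
        norm_num
    refine (sum_le_sum fun i _ => h5 i).trans ?_
    rw [sum_add_distrib, ← sum_div, ← sum_div, Fintype.sum_prod_type, Fintype.sum_prod_type_right]
    have h6 : ∑ a, ∑ b, (if p a = q b then x a else 0) ≤ d := by
      calc ∑ a, ∑ b, (if p a = q b then x a else 0) ≤ ∑ a, d * x a := by
            refine sum_le_sum fun a _ => ?_
            rw [← sum_filter, sum_const, nsmul_eq_mul]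
            refine mul_le_mul_of_nonneg_right ?_ (hx0 a)
            have h7 := hq (p a)
            have h8 : (univ.filter fun b => p a = q b) = univ.filter fun b => q b = p a := by
              ext b; simp only [mem_filter, mem_univ, true_and]; exact eq_comm
            rw [h8]
            exact_mod_cast h7
        _ = d := by rw [← mul_sum, h.one, mul_one]
    have h7 : ∑ b, ∑ a, (if p a = q b then y b else 0) ≤ d := by
      calc ∑ b, ∑ a, (if p a = q b then y b else 0) ≤ ∑ b, d * y b := by
            refine sum_le_sum fun b _ => ?_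
            rw [← sum_filter, sum_const, nsmul_eq_mul]
            refine mul_le_mul_of_nonneg_right ?_ (hy0 b)
            exact_mod_cast hp (q b)
        _ = d := by rw [← mul_sum, hy1, mul_one]
    linarith
  rw [h1, h2]
  refine h3.trans ?_
  rw [mul_comm]
  exact mul_le_mul_of_nonneg_right h4 (sum_nonneg fun i _ => hf0 i)

end

section
variable {Z A : Type} [Fintype Z] [DecidableEq Z] [Fintype A] [DecidableEq A]

/-- averages of bounded functions of two labels under conditioning -/
theorem avg2 {k : ℕ} {L : ((Z → A) → ℝ) →ₗ[ℝ] ℝ} (hL : Mixed (k + 1) L) (u v w : Z) (b b' : A) :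
    ∑ a, pr L u a * pr2 (cnd L u a) v w b b' = pr2 L v w b b' := by
  have h1 : ∀ a, pr L u a * pr2 (cnd L u a) v w b b' =
      L (fun x => ind u a x * (ind v b x * ind w b' x)) := by
    intro a
    show pr L u a * (L (fun x => ind u a x * (ind v b x * ind w b' x)) / pr L u a) = _
    by_cases ha : pr L u a = 0
    · rw [ha, zero_mul]
      have hS : ({u, v, w} : Finset Z).card ≤ k + 1 + 2 := card_le_three.trans (by omega)
      have hd1 : Dep {u, v, w} (fun x : Z → A => ind u a x * (ind v b x * ind w b' x)) :=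
        Mx.dep_mul (Mx.dep_ind u a _ (by simp))
          (Mx.dep_mul (Mx.dep_ind v b _ (by simp)) (Mx.dep_ind w b' _ (by simp)))
      have h0 : ∀ x : Z → A, 0 ≤ ind v b x * ind w b' x := fun x =>
        mul_nonneg (Mx.ind_nonneg _ _ _) (Mx.ind_nonneg _ _ _)
      have h2 : 0 ≤ L (fun x => ind u a x * (ind v b x * ind w b' x)) :=
        hL.junta {u, v, w} hS _ hd1 fun x => mul_nonneg (Mx.ind_nonneg u a x) (h0 x)
      have h3 : 0 ≤ L (fun x => ind u a x - ind u a x * (ind v b x * ind w b' x)) := by
        refine hL.junta {u, v, w} hS _ ?_ fun x => ?_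
        · intro x y h
          have d1 := hd1 x y h
          have d2 := Mx.dep_ind u a {u, v, w} (by simp) x y h
          simp only at d1
          show ind u a x - ind u a x * (ind v b x * ind w b' x) = _
          rw [d1, d2]
        · have h4 : ind v b x * ind w b' x ≤ 1 :=
            mul_le_one₀ (Mx.ind_le_one _ _ _) (Mx.ind_nonneg _ _ _) (Mx.ind_le_one _ _ _)
          have := mul_le_mul_of_nonneg_left h4 (Mx.ind_nonneg u a x)
          linarith
      have h4 : (fun x : Z → A => ind u a x - ind u a x * (ind v b x * ind w b' x)) =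
          ind u a - fun x => ind u a x * (ind v b x * ind w b' x) := rfl
      rw [h4, map_sub] at h3
      have h5 : L (ind u a) = 0 := ha
      linarith
    · rw [mul_div_cancel₀ _ ha]
  simp only [h1]
  rw [← map_sum]
  unfold pr2
  congr 1
  funext x
  rw [Finset.sum_apply, ← Finset.sum_mul, FB.sum_ind, one_mul]

variable {E B : Type} [Fintype E] [DecidableEq B]

/-- correlated weight of the pairs of edges -/
noncomputable def SatF (s t : E → Z) (π : E → A → B) (ω : E → ℝ) (F : Z → ℝ)
    (L : ((Z → A) → ℝ) →ₗ[ℝ] ℝ) : ℝ :=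
  PS t ω fun e e' => F (s e) * F (s e') * rl (π e) (π e') (pr2 L (s e) (s e'))

/-- the same for independent labels -/
noncomputable def IndF (s t : E → Z) (π : E → A → B) (ω : E → ℝ) (F : Z → ℝ)
    (p : Z → A → ℝ) : ℝ :=
  PS t ω fun e e' => F (s e) * F (s e') * rl (π e) (π e') (fun a b => p (s e) a * p (s e') b)

theorem satF_avg {k : ℕ} {L : ((Z → A) → ℝ) →ₗ[ℝ] ℝ} (hL : Mixed (k + 1) L) (s t : E → Z)
    (π : E → A → B) (ω : E → ℝ) (F : Z → ℝ) (u : Z) :
    ∑ a, pr L u a * SatF s t π ω F (cnd L u a) = SatF s t π ω F L := by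
  have h1 : ∀ e e', rl (π e) (π e') (pr2 L (s e) (s e')) =
      ∑ a, pr L u a * rl (π e) (π e') (pr2 (cnd L u a) (s e) (s e')) := by
    intro e e'
    unfold rl
    have h2 : ∀ a b, (if π e a = π e' b then pr2 L (s e) (s e') a b else 0) =
        ∑ c, pr L u c * (if π e a = π e' b then pr2 (cnd L u c) (s e) (s e') a b else 0) := by
      intro a b
      by_cases h : π e a = π e' b
      · simp only [if_pos h]
        exact (avg2 hL u _ _ a b).symm
      · simp [h]
    simp only [h2, mul_sum]
    rw [sum_comm]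
    conv_rhs => rw [sum_comm]
    rw [sum_comm]
    refine sum_congr rfl fun a _ => ?_
    rw [sum_comm]
  unfold SatF PS
  simp only [h1, mul_sum]
  rw [sum_comm]
  refine sum_congr rfl fun e _ => ?_
  rw [sum_comm]
  refine sum_congr rfl fun e' _ => ?_
  refine sum_congr rfl fun a _ => ?_
  ring

end

end Pool.Agent.TH522.DG
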