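import Pool.Agent.TH522.DG.Cond

/-!
Rounding of one soft part to a set of vertices with a distribution of labels at each vertex, the
greedy union of such sets, and labelings.
-/

namespace Pool.Agent.TH522.DG

open Finset Pool.Agent.H647R3.UG Pool.Agent.H573R3.SL Pool.Agent.TH522.UG Pool.Agent.TH522.US

/-- distributions of labels -/
def IsP {Z A : Type} [Fintype A] (p : Z → A → ℝ) : Prop :=
  (∀ v a, 0 ≤ p v a) ∧ ∀ v, ∑ a, p v a = 1

section
variable {Z A E B : Type} [Fintype Z] [DecidableEq Z] [Fintype A] [DecidableEq A] [Fintype E]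
  [DecidableEq B]

/-- correlated weight of the pairs of edges with sources in `S` -/
noncomputable def gf (s t : E → Z) (π : E → A → B) (ω : E → ℝ) (p : Z → A → ℝ)
    (S : Finset Z) : ℝ :=
  PS t ω fun e e' => (if s e ∈ S ∧ s e' ∈ S then 1 else 0) *
    rl (π e) (π e') (fun a b => p (s e) a * p (s e') b)

omit [DecidableEq A] [Fintype Z] [DecidableEq Z] in
theorem rl_p_nonneg {p : Z → A → ℝ} (hp : IsP p) (f g : A → B) (u v : Z) :
    0 ≤ rl f g (fun a b => p u a * p v b) :=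
  rl_nonneg _ _ _ fun _ _ => mul_nonneg (hp.1 _ _) (hp.1 _ _)

omit [DecidableEq A] [Fintype Z] [DecidableEq Z] in
theorem rl_p_le_one {p : Z → A → ℝ} (hp : IsP p) (f g : A → B) (u v : Z) :
    rl f g (fun a b => p u a * p v b) ≤ 1 := by
  unfold rl
  calc ∑ a, ∑ b, (if f a = g b then p u a * p v b else 0) ≤ ∑ a, ∑ b, p u a * p v b :=
        sum_le_sum fun a _ => sum_le_sum fun b _ => by
          split_ifs
          · exact le_rfl
          · exact mul_nonneg (hp.1 _ _) (hp.1 _ _)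
    _ = 1 := by
        rw [← sum_mul_sum, hp.2, hp.2, mul_one]

/-- rounding of one part -/
theorem part_round (s t : E → Z) (π : E → A → B) (d : ℕ) (hd : 0 < d)
    (hfib : ∀ e, Fib d (π e)) (ω : E → ℝ) (hω : ∀ e, 0 ≤ ω e) (hD : 0 < ∑ e, ω e) (n : ℕ)
    (hn : 0 < n) (κ q c2 : ℝ) (hκ : 0 < κ) (hκ1 : κ < 1) (hq : 0 < q) (hq1 : q ≤ 1)
    (hc2 : 0 < c2) (hc21 : c2 ≤ 1) (k : ℕ)
    (hk : 1 ≤ k * (c2 / 2 * (((c2 / 4) ^ 2 / d) ^ 2 *
      (Real.exp (-(2 * Real.log (1 / ((c2 / 4) ^ 2 / d)) * (Real.log (1 / q) / κ + 1))) *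
        (n : ℝ) ^ (-q)))))
    (L : ((Z → A) → ℝ) →ₗ[ℝ] ℝ) (hL : Mixed k L)
    (hpair : ∀ F : Z → ℝ, (∀ v, 0 ≤ F v) → c2 * bil (K2 s t ω) F F ≤ SatF s t π ω F L)
    (U0 : Finset Z) (hU0 : U0.card ≤ n)
    (hU : (∑ e, ω e) / 2 ≤ bil (K2 s t ω) (fun v => if v ∈ U0 then 1 else 0)
      (fun v => if v ∈ U0 then 1 else 0)) :
    ∃ (p : Z → A → ℝ) (S : Finset Z), IsP p ∧ S.Nonempty ∧ S ⊆ U0 ∧
      c2 ^ 2 * (n : ℝ) ^ (-(2 * κ)) / 4096 * ∑ u ∈ S, ds s ω u ≤ gf s t π ω p S := by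
  classical
  have hd0 : (0 : ℝ) < d := by exact_mod_cast hd
  have hd1 : (1 : ℝ) ≤ d := by exact_mod_cast hd
  have hn0 : (0 : ℝ) < n := by exact_mod_cast hn
  set K := K2 s t ω with hKd
  have hK : IsKer K := isKer_K2 s t ω hω
  set D := ∑ e, ω e with hDd
  set T : Z → ℝ := ds s ω with hTd
  have hT0 : ∀ u, 0 ≤ T u := ds_nonneg s ω hω
  have hTs : ∑ u, T u = D := by
    have := ds_sum s ω fun _ => 1
    simpa using this
  set ρ : Z → ℝ := fun u => T u / D + 1 / n with hρd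
  have hρ : ∀ v, 0 < ρ v := fun v => add_pos_of_nonneg_of_pos (div_nonneg (hT0 v) hD.le)
    (by positivity)
  obtain ⟨F, hF, hF0, hN, hΘ, hbig, hH⟩ := part_exists hK ρ hρ U0 κ hκ hκ1
    (lt_of_lt_of_le (by linarith) hU)
  set Θ := bil K F F with hΘd
  set p : ℝ := 2 / (1 + κ) with hp
  have hp1 : 1 < p := by rw [hp, lt_div_iff₀ (by linarith)]; linarith
  have hpk : p * (1 + κ) = 2 := by rw [hp]; field_simp
  -- size of the part
  have hΘD : D / 8 ≤ Θ := by
    have h1 : ∑ v ∈ U0, ρ v ≤ 2 := by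
      simp only [hρd]
      rw [sum_add_distrib, sum_const, ← sum_div, nsmul_eq_mul]
      have h2 : ∑ v ∈ U0, T v ≤ D := by
        rw [← hTs]
        exact sum_le_sum_of_subset_of_nonneg (subset_univ _) fun v _ _ => hT0 v
      have h3 : (∑ v ∈ U0, T v) / D ≤ 1 := by rw [div_le_one hD]; exact h2
      have h4 : (U0.card : ℝ) * (1 / n) ≤ 1 := by
        rw [mul_one_div, div_le_one hn0]
        exact_mod_cast hU0
      linarith
    have h0 : 0 ≤ ∑ v ∈ U0, ρ v := sum_nonneg fun v _ => (hρ v).le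
    have h2 : (∑ v ∈ U0, ρ v) ^ (1 + κ) ≤ 4 := by
      calc (∑ v ∈ U0, ρ v) ^ (1 + κ) ≤ (2 : ℝ) ^ (1 + κ) :=
            Real.rpow_le_rpow h0 h1 (by linarith)
        _ ≤ (2 : ℝ) ^ (2 : ℝ) := Real.rpow_le_rpow_of_exponent_le (by norm_num) (by linarith)
        _ = 4 := by norm_num
    have h3 : Θ * (∑ v ∈ U0, ρ v) ^ (1 + κ) ≤ Θ * 4 := mul_le_mul_of_nonneg_left h2 hΘ.le
    linarith
  -- the mass of the squares
  have hsqF : ∀ u, F u ^ 2 ≤ F u ^ p * (n : ℝ) ^ κ := by
    intro u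
    have h1 : F u ^ p ≤ n := by
      have h2 : ρ u * F u ^ p ≤ 1 := by
        rw [← hN]
        exact single_le_sum (f := fun v => ρ v * F v ^ p)
          (fun v _ => mul_nonneg (hρ v).le (Real.rpow_nonneg (hF v) _)) (mem_univ u)
      have h3 : 1 / (n : ℝ) * F u ^ p ≤ ρ u * F u ^ p := by
        refine mul_le_mul_of_nonneg_right ?_ (Real.rpow_nonneg (hF u) _)
        have := div_nonneg (hT0 u) hD.le
        simp only [hρd]
        linarith
      have h4 : 1 / (n : ℝ) * F u ^ p ≤ 1 := h3.trans h2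
      rw [one_div_mul_eq_div, div_le_one hn0] at h4
      exact h4
    rcases (hF u).eq_or_lt with h0 | h0
    · rw [← h0, Real.zero_rpow (by linarith)]
      simp
    · have h5 : F u ^ 2 = F u ^ p * (F u ^ p) ^ κ := by
        have h6 : F u ^ p * (F u ^ p) ^ κ = (F u ^ p) ^ (1 + κ) := by
          rw [Real.rpow_add (Real.rpow_pos_of_pos h0 _), Real.rpow_one]
        rw [h6, ← Real.rpow_mul h0.le, hpk]
        norm_num
      rw [h5]
      exact mul_le_mul_of_nonneg_left (Real.rpow_le_rpow (Real.rpow_nonneg h0.le _) h1 hκ.le)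
        (Real.rpow_nonneg h0.le _)
  have hnk : 0 < (n : ℝ) ^ κ := Real.rpow_pos_of_pos hn0 _
  have hM : ∑ u, T u * F u ^ 2 ≤ D * (n : ℝ) ^ κ := by
    calc ∑ u, T u * F u ^ 2 ≤ ∑ u, D * (n : ℝ) ^ κ * (ρ u * F u ^ p) := by
          refine sum_le_sum fun u _ => ?_
          have h1 : T u ≤ D * ρ u := by
            simp only [hρd]
            rw [mul_add, mul_div_cancel₀ _ hD.ne']
            have : 0 ≤ D * (1 / n) := by positivity
            linarith
          have h2 : 0 ≤ F u ^ p * (n : ℝ) ^ κ :=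
            mul_nonneg (Real.rpow_nonneg (hF u) _) hnk.le
          calc T u * F u ^ 2 ≤ T u * (F u ^ p * (n : ℝ) ^ κ) :=
                mul_le_mul_of_nonneg_left (hsqF u) (hT0 u)
            _ ≤ D * ρ u * (F u ^ p * (n : ℝ) ^ κ) := mul_le_mul_of_nonneg_right h1 h2
            _ = _ := by ring
      _ = D * (n : ℝ) ^ κ := by rw [← mul_sum, hN, mul_one]
  -- conditioning
  set m : Z → ℝ := fun u => ∑ v, kf K F u v with hmd
  have hker := isKer_kf hK F hF
  have hmt : ∑ u, m u = Θ := rfl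
  set r : ℝ := (c2 / 4) ^ 2 / d with hrd
  have hr0 : 0 < r := by positivity
  have hr1 : r ≤ 1 := by
    rw [hrd, div_le_one hd0]
    nlinarith
  set g : ℝ := Real.exp (-(2 * Real.log (1 / r) * (Real.log (1 / q) / κ + 1))) *
    (n : ℝ) ^ (-q) with hgd
  have hg : 0 ≤ g := mul_nonneg (Real.exp_pos _).le (Real.rpow_nonneg hn0.le _)
  have hcardm : (univ.filter fun v => 0 < m v).card ≤ n := by
    refine le_trans (card_le_card fun v hv => ?_) hU0
    by_contra hcon
    have h1 := (mem_filter.1 hv).2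
    have h2 : m v = 0 := by
      refine sum_eq_zero fun w _ => ?_
      unfold kf
      rw [hF0 v hcon]
      ring
    rw [h2] at h1
    exact lt_irrefl _ h1
  have hGC : GCQ (kf K F) m r g :=
    gcy0 (kf K F) hker m (fun u => rfl) κ r q n hκ hκ1 hr0 hr1 hq hq1 hcardm hH
  have hS := hpair F hF
  obtain ⟨L', hL', hI⟩ := s2d s t π d hd hfib ω hω F hF m rfl c2 g hc2 hg
    (by rw [hmt]; exact hΘ) hGC k hk L hL (by rw [hmt]; exact hS)
  rw [hmt] at hI
  have hfc := (hier_mixed Z A).fct _ _ hL'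
  have hP : IsP (pr L') := ⟨hfc.nn, fun v => (hfc.law v v).one⟩
  set c : E × E → ℝ := fun i => pw t ω i.1 i.2 *
    rl (π i.1) (π i.2) (fun a b => pr L' (s i.1) a * pr L' (s i.2) b) with hcd
  have hc0 : ∀ i, 0 ≤ c i := fun i => mul_nonneg (pw_nonneg t ω hω _ _)
    (rl_p_nonneg hP _ _ _ _)
  have hgood : c2 / 4 * Θ ≤ ∑ i, c i * (F (s i.1) * F (s i.2)) := by
    refine hI.trans (le_of_eq ?_)
    unfold IndF PS
    rw [Fintype.sum_prod_type]
    refine sum_congr rfl fun e _ => sum_congr rfl fun e' _ => ?_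
    simp only [hcd]
    ring
  have hcs : (∑ i, c i * (F (s i.1) * F (s i.2))) ^ 2 ≤
      (∑ i, c i * min (F (s i.1) ^ 2) (F (s i.2) ^ 2)) *
        ∑ i, c i * max (F (s i.1) ^ 2) (F (s i.2) ^ 2) := by
    refine sum_sq_le_sum_mul_sum_of_sq_le_mul _ (fun i _ => mul_nonneg (hc0 i)
      (le_min (sq_nonneg _) (sq_nonneg _))) (fun i _ => mul_nonneg (hc0 i)
      (le_trans (sq_nonneg _) (le_max_left _ _))) fun i _ => le_of_eq ?_
    have := min_mul_max (F (s i.1) ^ 2) (F (s i.2) ^ 2)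
    calc (c i * (F (s i.1) * F (s i.2))) ^ 2 = c i ^ 2 * (F (s i.1) ^ 2 * F (s i.2) ^ 2) := by
          ring
      _ = c i ^ 2 * (min (F (s i.1) ^ 2) (F (s i.2) ^ 2) * max (F (s i.1) ^ 2) (F (s i.2) ^ 2)) := by
          rw [this]
      _ = _ := by ring
  have hmax2 : ∑ i, c i * max (F (s i.1) ^ 2) (F (s i.2) ^ 2) ≤ 2 * (∑ u, T u * F u ^ 2) := by
    have h1 : ∑ i, c i * max (F (s i.1) ^ 2) (F (s i.2) ^ 2) ≤
        PS t ω (fun e e' => F (s e) ^ 2 + F (s e') ^ 2) := by
      rw [Fintype.sum_prod_type]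
      unfold PS
      refine sum_le_sum fun e _ => sum_le_sum fun e' _ => ?_
      have h2 : max (F (s e) ^ 2) (F (s e') ^ 2) ≤ F (s e) ^ 2 + F (s e') ^ 2 :=
        max_le (by linarith [sq_nonneg (F (s e'))]) (by linarith [sq_nonneg (F (s e))])
      have h3 : 0 ≤ max (F (s e) ^ 2) (F (s e') ^ 2) := le_trans (sq_nonneg _) (le_max_left _ _)
      have h4 := pw_nonneg t ω hω e e'
      have h5 := rl_p_le_one hP (π e) (π e') (s e) (s e')
      have h6 := rl_p_nonneg hP (π e) (π e') (s e) (s e')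
      simp only [hcd]
      rw [mul_assoc]
      refine mul_le_mul_of_nonneg_left ?_ h4
      calc _ ≤ 1 * max (F (s e) ^ 2) (F (s e') ^ 2) := mul_le_mul_of_nonneg_right h5 h3
        _ ≤ _ := by rw [one_mul]; exact h2
    refine h1.trans (le_of_eq ?_)
    rw [PS_add, PS_left t ω hω fun e => F (s e) ^ 2,
      PS_comm t ω fun e _ => F (s e) ^ 2, PS_left t ω hω fun e => F (s e) ^ 2,
      ← ds_sum s ω fun u => F u ^ 2]
    ring
  set X := ∑ i, c i * min (F (s i.1) ^ 2) (F (s i.2) ^ 2) with hXd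
  have hX0 : 0 ≤ X := sum_nonneg fun i _ => mul_nonneg (hc0 i)
    (le_min (sq_nonneg _) (sq_nonneg _))
  set M := ∑ u, T u * F u ^ 2 with hMd
  have hM0 : 0 ≤ M := sum_nonneg fun u _ => mul_nonneg (hT0 u) (sq_nonneg _)
  have hmain : c2 ^ 2 * (n : ℝ) ^ (-(2 * κ)) / 4096 * M < X := by
    by_contra hcon
    push Not at hcon
    have h1 : (c2 * D / 32) ^ 2 ≤ X * (2 * M) := by
      have h2 : (c2 * D / 32) ^ 2 ≤ (∑ i, c i * (F (s i.1) * F (s i.2))) ^ 2 := by
        refine pow_le_pow_left₀ (by positivity) (le_trans ?_ hgood) 2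
        have := mul_le_mul_of_nonneg_left hΘD (by positivity : 0 ≤ c2 / 4)
        linarith
      exact h2.trans (hcs.trans (mul_le_mul_of_nonneg_left hmax2 hX0))
    have h3 : X * (2 * M) ≤ c2 ^ 2 * (n : ℝ) ^ (-(2 * κ)) / 4096 * M * (2 * M) :=
      mul_le_mul_of_nonneg_right hcon (by linarith)
    have h4 : M * M ≤ (D * (n : ℝ) ^ κ) * (D * (n : ℝ) ^ κ) :=
      mul_le_mul hM hM hM0 (by positivity)
    have h5 : (n : ℝ) ^ (-(2 * κ)) * ((n : ℝ) ^ κ * (n : ℝ) ^ κ) = 1 := by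
      rw [← Real.rpow_add hn0, ← Real.rpow_add hn0]
      rw [show -(2 * κ) + (κ + κ) = 0 by ring, Real.rpow_zero]
    have h6 : 0 < (n : ℝ) ^ (-(2 * κ)) := Real.rpow_pos_of_pos hn0 _
    have h7 : c2 ^ 2 * (n : ℝ) ^ (-(2 * κ)) / 4096 * M * (2 * M) ≤ (c2 * D) ^ 2 / 2048 := by
      calc c2 ^ 2 * (n : ℝ) ^ (-(2 * κ)) / 4096 * M * (2 * M) =
            c2 ^ 2 * (n : ℝ) ^ (-(2 * κ)) / 2048 * (M * M) := by ring
        _ ≤ c2 ^ 2 * (n : ℝ) ^ (-(2 * κ)) / 2048 * ((D * (n : ℝ) ^ κ) * (D * (n : ℝ) ^ κ)) :=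
            mul_le_mul_of_nonneg_left h4 (by positivity)
        _ = (n : ℝ) ^ (-(2 * κ)) * ((n : ℝ) ^ κ * (n : ℝ) ^ κ) * ((c2 * D) ^ 2 / 2048) := by ring
        _ = _ := by rw [h5, one_mul]
    have h8 : 0 < (c2 * D) ^ 2 := by positivity
    have h9 : (c2 * D / 32) ^ 2 = (c2 * D) ^ 2 / 1024 := by ring
    rw [h9] at h1
    linarith
  obtain ⟨S, hS, hSP, hSb⟩ := layer c (fun i => s i.1) (fun i => s i.2) T
    (c2 ^ 2 * (n : ℝ) ^ (-(2 * κ)) / 4096) _ (fun v => F v ^ 2) (fun v => sq_nonneg _) le_rfl hmain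
  refine ⟨pr L', S, hP, hS, fun v hv => ?_, hSb.trans (le_of_eq ?_)⟩
  · by_contra hcon
    have h1 := hSP v hv
    simp only [hF0 v hcon] at h1
    norm_num at h1
  · rw [Fintype.sum_prod_type]
    unfold gf PS
    refine sum_congr rfl fun e _ => sum_congr rfl fun e' _ => ?_
    simp only [hcd]
    ring

omit [DecidableEq A] in
/-- greedy union of the sets of the parts -/
theorem greedy (s t : E → Z) (π : E → A → B) (ω : E → ℝ) (hω : ∀ e, 0 ≤ ω e) (β c : ℝ)
    (U : Finset Z) (hpart : ∀ U0 : Finset Z, U0 ⊆ U → c ≤ bil (K2 s t ω) (fun v => if v ∈ U0 then 1 else 0)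
      (fun v => if v ∈ U0 then 1 else 0) →
      ∃ (p : Z → A → ℝ) (S : Finset Z), IsP p ∧ S.Nonempty ∧ S ⊆ U0 ∧
        β * ∑ u ∈ S, ds s ω u ≤ gf s t π ω p S) (p0 : Z → A → ℝ) (hp0 : IsP p0) :
    ∀ (N : ℕ) (U0 : Finset Z), U0.card ≤ N → U0 ⊆ U →
      ∃ (p : Z → A → ℝ) (T : Finset Z), IsP p ∧ T ⊆ U0 ∧
      bil (K2 s t ω) (fun v => if v ∈ U0 \ T then 1 else 0)
        (fun v => if v ∈ U0 \ T then 1 else 0) < c ∧
      β * ∑ u ∈ T, ds s ω u ≤ gf s t π ω p T := by
  intro N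
  induction N with
  | zero =>
    intro U0 hU0 _
    have h0 : U0 = ∅ := by
      rw [← card_eq_zero]
      omega
    subst h0
    by_cases hc : bil (K2 s t ω) (fun v => if v ∈ (∅ : Finset Z) then 1 else 0)
      (fun v => if v ∈ (∅ : Finset Z) then 1 else 0) < c
    · refine ⟨p0, ∅, hp0, subset_rfl, by rw [sdiff_empty]; exact hc, ?_⟩
      rw [sum_empty, mul_zero]
      exact PS_nonneg t ω hω _ fun e e' => mul_nonneg (by split_ifs <;> norm_num)
        (rl_p_nonneg hp0 _ _ _ _)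
    · push Not at hc
      obtain ⟨x, S, -, hS, hSU, -⟩ := hpart ∅ (empty_subset _) hc
      rw [subset_empty] at hSU
      rw [hSU] at hS
      exact absurd hS (by simp)
  | succ N ih =>
    intro U0 hU0 hUU
    by_cases hc : bil (K2 s t ω) (fun v => if v ∈ U0 then 1 else 0)
      (fun v => if v ∈ U0 then 1 else 0) < c
    · refine ⟨p0, ∅, hp0, empty_subset _, by rw [sdiff_empty]; exact hc, ?_⟩
      rw [sum_empty, mul_zero]
      exact PS_nonneg t ω hω _ fun e e' => mul_nonneg (by split_ifs <;> norm_num)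
        (rl_p_nonneg hp0 _ _ _ _)
    · push Not at hc
      obtain ⟨p1, S, hP1, hS, hSU, hSb⟩ := hpart U0 hUU hc
      have hcard : (U0 \ S).card ≤ N := by
        rw [card_sdiff_of_subset hSU]
        have := card_pos.2 hS
        omega
      obtain ⟨p2, T2, hP2, hT2, hTc, hTb⟩ := ih (U0 \ S) hcard
        (sdiff_subset.trans hUU)
      have hdis : Disjoint S T2 := disjoint_of_subset_right hT2 disjoint_sdiff
      have hP3 : IsP (fun v => if v ∈ S then p1 v else p2 v) := by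
        refine ⟨fun v a => ?_, fun v => ?_⟩
        · by_cases hv : v ∈ S
          · simp only [if_pos hv]; exact hP1.1 v a
          · simp only [if_neg hv]; exact hP2.1 v a
        · by_cases hv : v ∈ S
          · simp only [if_pos hv]; exact hP1.2 v
          · simp only [if_neg hv]; exact hP2.2 v
      refine ⟨fun v => if v ∈ S then p1 v else p2 v, S ∪ T2, hP3,
        union_subset hSU (hT2.trans sdiff_subset), ?_, ?_⟩
      · have h1 : U0 \ (S ∪ T2) = (U0 \ S) \ T2 := by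
          ext v
          simp only [mem_sdiff, mem_union]
          tauto
        rw [h1]
        exact hTc
      · rw [sum_union hdis, mul_add]
        refine (add_le_add hSb hTb).trans ?_
        unfold gf
        rw [← PS_add]
        refine PS_mono t ω hω _ _ fun e e' _ => ?_
        by_cases h1 : s e ∈ S ∧ s e' ∈ S
        · have h2 : ¬ (s e ∈ T2 ∧ s e' ∈ T2) :=
            fun h => (disjoint_left.1 hdis) h1.1 h.1
          rw [if_pos h1, if_neg h2, if_pos ⟨mem_union_left _ h1.1, mem_union_left _ h1.2⟩]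
          simp only [if_pos h1.1, if_pos h1.2]
          linarith
        · rw [if_neg h1, zero_mul, zero_add]
          by_cases h2 : s e ∈ T2 ∧ s e' ∈ T2
          · have h3 : s e ∉ S := fun h => (disjoint_left.1 hdis) h h2.1
            have h4 : s e' ∉ S := fun h => (disjoint_left.1 hdis) h h2.2
            rw [if_pos h2, if_pos ⟨mem_union_right _ h2.1, mem_union_right _ h2.2⟩]
            simp only [if_neg h3, if_neg h4]
            exact le_rfl
          · rw [if_neg h2, zero_mul]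
            exact mul_nonneg (by split_ifs <;> norm_num) (rl_p_nonneg hP3 _ _ _ _)

omit [DecidableEq A] in
theorem rl_prod [Fintype B] (f g : A → B) (x y : A → ℝ) :
    rl f g (fun a b => x a * y b) =
      ∑ b, (∑ a, if f a = b then x a else 0) * (∑ a, if g a = b then y a else 0) := by
  unfold rl
  simp only [sum_mul_sum]
  rw [sum_comm]
  conv_rhs => rw [sum_comm]
  rw [sum_comm]
  refine sum_congr rfl fun a _ => ?_
  rw [sum_comm]
  refine sum_congr rfl fun a' _ => ?_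
  have h1 : ∀ b, (if f a = b then x a else 0) * (if g a' = b then y a' else 0) =
      if f a = b then (x a * if g a' = b then y a' else 0) else 0 := fun b => by
    split_ifs <;> simp
  rw [sum_congr rfl fun b _ => h1 b, sum_ite_eq, if_pos (mem_univ _)]
  by_cases h2 : f a = g a'
  · rw [if_pos h2, if_pos h2.symm]
  · rw [if_neg h2, if_neg fun h => h2 h.symm, mul_zero]

omit [DecidableEq A] in
/-- labelings of the sources and of the targets -/
theorem two_sided [Fintype B] [Nonempty B] [Nonempty A] (s t : E → Z) (π : E → A → B)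
    (ω : E → ℝ) (hω : ∀ e, 0 ≤ ω e) (β : ℝ) (hβ : 0 ≤ β) (U : Finset Z) (hU : ∀ e, s e ∈ U)
    (hpart : ∀ U0 : Finset Z, U0 ⊆ U → (∑ e, ω e) / 2 ≤
      bil (K2 s t ω) (fun v => if v ∈ U0 then 1 else 0) (fun v => if v ∈ U0 then 1 else 0) →
      ∃ (p : Z → A → ℝ) (S : Finset Z), IsP p ∧ S.Nonempty ∧ S ⊆ U0 ∧
        β * ∑ u ∈ S, ds s ω u ≤ gf s t π ω p S) (p0 : Z → A → ℝ) (hp0 : IsP p0) :
    ∃ (x : Z → A) (y : Z → B), β * (∑ e, ω e) / 4 ≤
      ∑ e, ω e * (if π e (x (s e)) = y (t e) then 1 else 0) := by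
  classical
  obtain ⟨p, T, hP, hTU, hTc, hTb⟩ := greedy s t π ω hω β ((∑ e, ω e) / 2) U hpart p0 hp0 _ U
    le_rfl subset_rfl
  have hdT : (∑ e, ω e) / 4 ≤ ∑ u ∈ T, ds s ω u := by
    have h1 : PS t ω (fun _ _ => 1) ≤ PS t ω (fun e e' =>
        ((if s e ∈ U \ T then (1 : ℝ) else 0) * (if s e' ∈ U \ T then 1 else 0)) +
        ((if s e ∈ T then 1 else 0) + (if s e' ∈ T then 1 else 0))) := by
      refine PS_mono t ω hω _ _ fun e e' _ => ?_
      simp only [mem_sdiff, hU, true_and]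
      split_ifs <;> norm_num
    have hb := bil_K2 s t ω (fun v => if v ∈ U \ T then (1 : ℝ) else 0)
      (fun v => if v ∈ U \ T then (1 : ℝ) else 0)
    beta_reduce at hb
    rw [PS_add, PS_add, PS_left t ω hω fun _ => 1, ← hb,
      PS_left t ω hω fun e => if s e ∈ T then (1 : ℝ) else 0,
      PS_comm t ω fun e _ => if s e ∈ T then (1 : ℝ) else 0,
      PS_left t ω hω fun e => if s e ∈ T then (1 : ℝ) else 0,
      ← ds_sum s ω fun u => if u ∈ T then (1 : ℝ) else 0] at h1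
    simp only [mul_one, mul_ite, mul_zero] at h1
    rw [sum_ite_mem, univ_inter] at h1
    linarith
  -- distributions of the images
  set Q : E → B → ℝ := fun e b => if s e ∈ T then ∑ a, (if π e a = b then p (s e) a else 0) else 0
    with hQ
  have hq0 : ∀ e b, 0 ≤ ∑ a, (if π e a = b then p (s e) a else 0) := fun e b =>
    sum_nonneg fun a _ => by split_ifs; exacts [hP.1 _ _, le_rfl]
  have hQ0 : ∀ e b, 0 ≤ Q e b := fun e b => by
    simp only [hQ]; split_ifs; exacts [hq0 e b, le_rfl]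
  have hQ1 : ∀ e, ∑ b, Q e b ≤ 1 := by
    intro e
    simp only [hQ]
    by_cases he : s e ∈ T
    · simp only [if_pos he]
      rw [sum_comm]
      refine le_of_eq ?_
      rw [← hP.2 (s e)]
      refine sum_congr rfl fun a _ => ?_
      rw [sum_ite_eq, if_pos (mem_univ _)]
    · simp [he]
  -- labels of the targets
  set N : Z → B → ℝ := fun v b => ∑ e, if t e = v then ω e * Q e b else 0 with hN
  have hN0 : ∀ v b, 0 ≤ N v b := fun v b => sum_nonneg fun e _ => by
    split_ifs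
    · exact mul_nonneg (hω e) (hQ0 e b)
    · exact le_rfl
  have hmax : ∀ v, ∃ b, ∀ b', N v b' ≤ N v b := fun v => Finite.exists_max (N v)
  choose y hy using hmax
  set Mx : Z → A → ℝ := fun u a => ∑ e, if s e = u then
    ω e * (if π e a = y (t e) then 1 else 0) else 0 with hMx
  have hmax2 : ∀ u, ∃ a, ∀ a', Mx u a' ≤ Mx u a := fun u => Finite.exists_max (Mx u)
  choose x hx using hmax2
  refine ⟨x, y, ?_⟩
  have h1 : gf s t π ω p T = ∑ b, ∑ v, N v b ^ 2 / bd t ω v := by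
    have h2 : ∀ b, ∑ v, N v b ^ 2 / bd t ω v = PS t ω (fun e e' => Q e b * Q e' b) := fun b =>
      (PS_sq t ω fun e => Q e b).symm
    rw [sum_congr rfl fun b _ => h2 b]
    unfold gf PS
    symm
    rw [sum_comm]
    refine sum_congr rfl fun e _ => ?_
    rw [sum_comm]
    refine sum_congr rfl fun e' _ => ?_
    rw [← mul_sum]
    congr 1
    beta_reduce
    rw [rl_prod]
    simp only [hQ]
    by_cases h3 : s e ∈ T
    · by_cases h4 : s e' ∈ T
      · simp only [if_pos h3, if_pos h4]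
        rw [if_pos (And.intro h3 h4), one_mul]
      · simp [h4]
    · simp [h3]
  have h2 : gf s t π ω p T ≤ ∑ v, N v (y v) := by
    rw [h1, sum_comm]
    refine sum_le_sum fun v _ => ?_
    have hb := bd_nonneg t ω hω v
    have h3 : ∑ a, N v a ≤ bd t ω v := by
      simp only [hN]
      rw [sum_comm]
      unfold bd
      refine sum_le_sum fun e _ => ?_
      by_cases h4 : t e = v
      · simp only [if_pos h4]
        rw [← mul_sum]
        have := mul_le_mul_of_nonneg_left (hQ1 e) (hω e)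
        linarith
      · simp [h4]
    have h4 : ∑ a, N v a ^ 2 / bd t ω v ≤ N v (y v) * ((∑ a, N v a) / bd t ω v) := by
      rw [sum_div, mul_sum]
      refine sum_le_sum fun a _ => ?_
      rw [sq, mul_div_assoc]
      exact mul_le_mul_of_nonneg_right (hy v a) (div_nonneg (hN0 v a) hb)
    refine h4.trans ?_
    have h5 : (∑ a, N v a) / bd t ω v ≤ 1 := div_le_one_of_le₀ h3 hb
    have := mul_le_mul_of_nonneg_left h5 (hN0 v (y v))
    linarith
  have h3 : ∑ v, N v (y v) ≤ ∑ e, ω e * ∑ a, (if π e a = y (t e) then p (s e) a else 0) := by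
    simp only [hN]
    rw [sum_comm]
    refine sum_le_sum fun e _ => ?_
    rw [sum_ite_eq, if_pos (mem_univ _)]
    refine mul_le_mul_of_nonneg_left ?_ (hω e)
    simp only [hQ]
    split_ifs
    · exact le_rfl
    · exact hq0 e _
  have h4 : ∑ e, ω e * ∑ a, (if π e a = y (t e) then p (s e) a else 0) =
      ∑ u, ∑ a, p u a * Mx u a := by
    have h5 : ∀ u, ∑ a, p u a * Mx u a = ∑ e, if s e = u then
        ω e * ∑ a, (if π e a = y (t e) then p (s e) a else 0) else 0 := by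
      intro u
      simp only [hMx, mul_sum]
      rw [sum_comm]
      refine sum_congr rfl fun e _ => ?_
      by_cases h6 : s e = u
      · simp only [if_pos h6]
        refine sum_congr rfl fun a _ => ?_
        rw [h6]
        split_ifs <;> ring
      · simp [h6]
    rw [sum_congr rfl fun u _ => h5 u, sum_comm]
    refine sum_congr rfl fun e _ => ?_
    rw [sum_ite_eq, if_pos (mem_univ _)]
  have h5 : ∑ u, ∑ a, p u a * Mx u a ≤ ∑ u, Mx u (x u) := by
    refine sum_le_sum fun u _ => ?_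
    calc ∑ a, p u a * Mx u a ≤ ∑ a, p u a * Mx u (x u) :=
          sum_le_sum fun a _ => mul_le_mul_of_nonneg_left (hx u a) (hP.1 u a)
      _ = Mx u (x u) := by rw [← sum_mul, hP.2 u, one_mul]
  have h6 : ∑ u, Mx u (x u) = ∑ e, ω e * (if π e (x (s e)) = y (t e) then 1 else 0) := by
    simp only [hMx]
    rw [sum_comm]
    refine sum_congr rfl fun e _ => ?_
    rw [sum_ite_eq, if_pos (mem_univ _)]
  calc β * (∑ e, ω e) / 4 = β * ((∑ e, ω e) / 4) := by ring
    _ ≤ β * ∑ u ∈ T, ds s ω u := mul_le_mul_of_nonneg_left hdT hβ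
    _ ≤ ∑ v, N v (y v) := hTb.trans h2
    _ ≤ _ := h3.trans (h4.le.trans (h5.trans h6.le))

end

end Pool.Agent.TH522.DG
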